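import Pool.Agent.MP_3aea93_al.H72.Prod
import Pool.Agent.MP_3aea93_al.H75.Glue
import Pool.Agent.MP_3aea93_al.H75.Ext
import Pool.Agent.MP_3aea93_al.H75.Perf
import Pool.Agent.MP_3aea93_al.H75.G0
import Pool.Agent.MP_3aea93_al.H75.Frag

/-! The elements that are the identity near an arc. -/

set_option autoImplicit false

namespace Pool.Agent.MP_3aea93_al.H72

open Set Filter Topology H75
open scoped commutatorElement

theorem hE : RowE := rowE rowGlue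

theorem hX : RowExt := rowExt hE

theorem hG0 : RowG0 := rowG0 rowGlue rowPer (rowH0 rowGlue (rowPc rowGlue hE))

theorem hTwo : RowTwo := rowTwo hX rowPer (rowGen hX rowPer)

/-- the elements that are the identity near `[u, v]` -/
def Nn (C : Ctx) (u v : ℝ) : Subgroup C.G where
  carrier := {g | ∃ q p : ℝ, q < u ∧ v < p ∧ ∀ x, q ≤ x → x ≤ p → g.1 x = x}
  one_mem' := ⟨u - 1, v + 1, by linarith, by linarith, fun _ _ _ => rfl⟩
  mul_mem' := fun {f g} ⟨q, p, h1, h2, hf⟩ ⟨q', p', h1', h2', hg⟩ =>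
    ⟨max q q', min p p', max_lt h1 h1', lt_min h2 h2', fun x a b => by
      show f.1 (g.1 x) = x
      rw [hg x ((le_max_right _ _).trans a) (b.trans (min_le_right _ _)),
        hf x ((le_max_left _ _).trans a) (b.trans (min_le_left _ _))]⟩
  inv_mem' := fun {_} ⟨q, p, h1, h2, hf⟩ => ⟨q, p, h1, h2, fun x a b => inv_eq_of (hf x a b)⟩

variable {C : Ctx}

theorem mem_Nn {u v : ℝ} {g : C.G} :
    g ∈ Nn C u v ↔ ∃ q p : ℝ, q < u ∧ v < p ∧ ∀ x, q ≤ x → x ≤ p → g.1 x = x := Iff.rfl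

theorem per (g : C.G) (x : ℝ) (k : ℤ) : g.1 (x + k) = g.1 x + k := add_int (f := g.1) g.2.2 x k

theorem per1 (g : C.G) (x : ℝ) : g.1 (x + 1) = g.1 x + 1 := g.2.2 x

theorem Nn_mono {u v u' v' : ℝ} (h1 : u' ≤ u) (h2 : v ≤ v') : Nn C u' v' ≤ Nn C u v :=
  fun _ ⟨q, p, a, b, c⟩ => ⟨q, p, a.trans_le h1, h2.trans_lt b, c⟩

theorem Nn_fix {u v x : ℝ} {g : C.G} (h : g ∈ Nn C u v) (h1 : u ≤ x) (h2 : x ≤ v) : g.1 x = x :=
  let ⟨_, _, a, b, c⟩ := h; c x (a.le.trans h1) (h2.trans b.le)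

theorem Nn_int {u v : ℝ} {g : C.G} (h : g ∈ Nn C u v) (k : ℤ) : g ∈ Nn C (u + k) (v + k) := by
  obtain ⟨q, p, a, b, c⟩ := h
  refine ⟨q + k, p + k, by linarith, by linarith, fun x d e => ?_⟩
  have h1 := per g (x - k) k
  rw [c (x - k) (by linarith) (by linarith), sub_add_cancel] at h1
  exact h1

theorem Nn_pred {u v : ℝ} {g : C.G} (h : g ∈ Nn C (u + 1) (v + 1)) : g ∈ Nn C u v := by
  simpa using Nn_int h (-1)

theorem Nn_succ {u v : ℝ} {g : C.G} (h : g ∈ Nn C u v) : g ∈ Nn C (u + 1) (v + 1) := by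
  simpa using Nn_int h 1

theorem conj_fix {g h : C.G} {q p x : ℝ} (c : ∀ x, q ≤ x → x ≤ p → h.1 x = x) (d : g.1 q ≤ x)
    (e : x ≤ g.1 p) : (g * h * g⁻¹).1 x = x := by
  show g.1 (h.1 (g.1⁻¹ x)) = x
  rw [c (g.1⁻¹ x) (g.1.le_symm_apply.2 d) (g.1.symm_apply_le.2 e), apply_inv]

theorem Nn_conj {u v : ℝ} {h : C.G} (g : C.G) (hh : h ∈ Nn C u v) :
    g * h * g⁻¹ ∈ Nn C (g.1 u) (g.1 v) :=
  let ⟨q, p, a, b, c⟩ := hh
  ⟨g.1 q, g.1 p, g.1.strictMono a, g.1.strictMono b, fun _ d e => conj_fix c d e⟩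

theorem comm_of_fix {a b : C.G} {u v : ℝ} (ha : ∀ x, u ≤ x → x ≤ v → a.1 x = x)
    (hb : ∀ x, v ≤ x → x ≤ u + 1 → b.1 x = x) : Commute a b := by
  refine Subtype.ext (Frag.commute_of_fix fun x => ?_)
  obtain ⟨n, n1, n2⟩ := Frag.exists_shift x u
  rcases le_total (x + n) v with h | h
  · exact Or.inl (Frag.fix_int a.2.2 n (ha _ n1 h))
  · exact Or.inr (Frag.fix_int b.2.2 n (hb _ h n2.le))

theorem Nn_comm {a b : C.G} {u v u' v' : ℝ} (ha : a ∈ Nn C u v) (hb : b ∈ Nn C u' v')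
    (h1 : u' ≤ v) (h2 : u + 1 ≤ v') : Commute a b :=
  comm_of_fix (fun _ c d => Nn_fix ha c d) fun _ c d => Nn_fix hb (h1.trans c) (d.trans h2)

/-- squeezing inside the arc `(p, q)` -/
theorem sq (C : Ctx) {p a b q s t : ℝ} (h1 : p < a) (h2 : b < q) (h3 : q ≤ p + 1) (h4 : p ≤ s)
    (h5 : s < t) (h6 : t ≤ q) : ∃ k ∈ Nn C q (p + 1), s < k.1 a ∧ k.1 b < t := by
  obtain ⟨a', ha', a1, a2⟩ := C.dense (lt_min h1 (by linarith : p < q))
  obtain ⟨a3, a4⟩ := lt_min_iff.1 a2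
  obtain ⟨b', hb', b1, b2⟩ := C.dense (max_lt h2 a4)
  obtain ⟨b3, b4⟩ := max_lt_iff.1 b1
  obtain ⟨l, hl, l1⟩ := C.exists_small (div_pos (sub_pos.2 h5) (sub_pos.2 b4))
  rw [lt_div_iff₀ (sub_pos.2 b4)] at l1
  obtain ⟨c, hc, c1, c2⟩ := C.dense (by linarith : s - l * a' < t - l * b')
  obtain ⟨p', hp', p1, p2⟩ := C.dense (lt_min a1 (by linarith : p < l * a' + c))
  obtain ⟨p3, p4⟩ := lt_min_iff.1 p2
  obtain ⟨q', hq', q1, q2⟩ := C.dense (max_lt b2 (by linarith : l * b' + c < q))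
  obtain ⟨q3, q4⟩ := max_lt_iff.1 q1
  obtain ⟨g, hg, g1, g2⟩ := extG hX rowPer C p' a' b' q' l c hp' ha' hb' hq' hl hc p3 b4.le q3 p4 q4
    (by linarith)
  refine ⟨⟨g, hg⟩, ⟨q', p' + 1, q2, by linarith, g2⟩, ?_, ?_⟩
  · have := g.monotone a3.le
    rw [g1 a' le_rfl b4.le] at this
    show s < g a
    linarith
  · have := g.monotone b3.le
    rw [g1 b' b4.le le_rfl] at this
    show g b < t
    linarith

theorem into {u v u' v' : ℝ} (h1 : u ≤ v) (h2 : u' ≤ u) (h3 : v ≤ v') (h4 : v' < u' + 1) :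
    ∀ p ∈ Nn C u v, ∃ k ∈ Nn C u v, k * p * k⁻¹ ∈ Nn C u' v' := by
  rintro g ⟨q, p, a, b, c⟩
  obtain ⟨k, hk, k1, k2⟩ := sq C (p := v) (a := p) (b := q + 1) (q := u + 1) (s := v') (t := u' + 1)
    b (by linarith) (by linarith) h3 h4 (by linarith)
  rw [per1] at k2
  exact ⟨k, Nn_pred hk, k.1 q, k.1 p, by linarith, k1, fun _ d e => conj_fix c d e⟩

theorem comm_conj {P Q : Subgroup C.G} (k : C.G) (h : ∀ g ∈ P, k * g * k⁻¹ ∈ Q) {g : C.G}
    (hg : g ∈ ⁅P, P⁆) : k * g * k⁻¹ ∈ ⁅Q, Q⁆ := by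
  have h1 : P.map (MulAut.conj k).toMonoidHom ≤ Q := by
    rintro _ ⟨a, ha, rfl⟩
    exact h a ha
  refine Subgroup.commutator_mono h1 h1 ?_
  rw [← Subgroup.map_commutator]
  exact ⟨g, hg, rfl⟩

theorem perf0 {g : C.G} (hg : g.1 ∈ C.Gx 0) : ∃ δ : ℝ, 0 < δ ∧ g ∈ ⁅Nn C (-δ) δ, Nn C (-δ) δ⁆ := by
  let W : Subgroup C.G :=
    { carrier := {g | ∃ δ : ℝ, 0 < δ ∧ g ∈ ⁅Nn C (-δ) δ, Nn C (-δ) δ⁆}
      one_mem' := ⟨1, one_pos, Subgroup.one_mem _⟩
      mul_mem' := fun {a b} ⟨δ, h1, h2⟩ ⟨ε, h3, h4⟩ => ⟨min δ ε, lt_min h1 h3, by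
        have e1 : Nn C (-δ) δ ≤ Nn C (-min δ ε) (min δ ε) :=
          Nn_mono (neg_le_neg (min_le_left _ _)) (min_le_left _ _)
        have e2 : Nn C (-ε) ε ≤ Nn C (-min δ ε) (min δ ε) :=
          Nn_mono (neg_le_neg (min_le_right _ _)) (min_le_right _ _)
        exact Subgroup.mul_mem _ (Subgroup.commutator_mono e1 e1 h2)
          (Subgroup.commutator_mono e2 e2 h4)⟩
      inv_mem' := fun {_} ⟨δ, h1, h2⟩ => ⟨δ, h1, Subgroup.inv_mem _ h2⟩ }
  have h1 : ⁅C.Gx 0, C.Gx 0⁆ ≤ W.map C.G.subtype := by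
    refine Subgroup.commutator_le.2 fun a ha b hb => ?_
    have e1 : ∀ᶠ z in 𝓝 (0 : ℝ), a z = z := ha.2
    have e2 : ∀ᶠ z in 𝓝 (0 : ℝ), b z = z := hb.2
    obtain ⟨ε, ε0, hε⟩ := Metric.eventually_nhds_iff.1 (e1.and e2)
    have e3 : ∀ x, -(ε / 2) ≤ x → x ≤ ε / 2 → a x = x ∧ b x = x := fun x c d =>
      hε (by rw [Real.dist_eq, abs_lt]; constructor <;> linarith)
    refine ⟨⁅(⟨a, ha.1⟩ : C.G), (⟨b, hb.1⟩ : C.G)⁆, ⟨ε / 4, by linarith,
      Subgroup.commutator_mem_commutator ?_ ?_⟩, rfl⟩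
    · exact ⟨-(ε / 2), ε / 2, by linarith, by linarith, fun x c d => (e3 x c d).1⟩
    · exact ⟨-(ε / 2), ε / 2, by linarith, by linarith, fun x c d => (e3 x c d).2⟩
  obtain ⟨k, hk, e⟩ := h1 (hG0 C hg)
  obtain rfl : k = g := Subtype.ext e
  exact hk

/-- the rotation -/
def rot (C : Ctx) (c : ℝ) (hc : c ∈ C.A) : C.G := ⟨tr c, Ctx.tr_mem_G hc⟩

theorem rot_app {c : ℝ} (hc : c ∈ C.A) (x : ℝ) : (rot C c hc).1 x = x + c := rfl

theorem perf {u v : ℝ} (h1 : u ≤ v) : Nn C u v ≤ ⁅Nn C u v, Nn C u v⁆ := by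
  rintro g ⟨q₀, p₀, a₀, b₀, c₀⟩
  by_cases h2 : u + 1 ≤ v
  · have : g = 1 := Subtype.ext (OrderIso.ext (funext fun x => by
      obtain ⟨n, n1, n2⟩ := Frag.exists_shift x u
      exact Frag.fix_int g.2.2 n (c₀ _ (by linarith) (by linarith))))
    rw [this]; exact Subgroup.one_mem _
  push Not at h2
  obtain ⟨q, a1, a⟩ := exists_between (max_lt a₀ (by linarith : v - 1 < u))
  obtain ⟨a2, a3⟩ := max_lt_iff.1 a1
  obtain ⟨p, b, b1⟩ := exists_between (lt_min b₀ (by linarith : v < q + 1))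
  obtain ⟨b2, b3⟩ := lt_min_iff.1 b1
  have c : ∀ x, q ≤ x → x ≤ p → g.1 x = x := fun x d e => c₀ x (by linarith) (by linarith)
  obtain ⟨z, hz, z1, z2⟩ := C.dense a
  let r := rot C z hz
  have e1 : (r⁻¹ * g * r⁻¹⁻¹).1 ∈ C.Gx 0 := by
    refine Frag.Gx_of_Icc (u := q - z) (v := p - z) (r⁻¹ * g * r⁻¹⁻¹).2 (fun x d e => ?_)
      (by linarith) (by linarith)
    exact conj_fix c (by rw [show r⁻¹.1 q = q - z from tr_inv_app z q]; exact d)
      (by rw [show r⁻¹.1 p = p - z from tr_inv_app z p]; exact e)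
  obtain ⟨δ, d0, d1⟩ := perf0 e1
  have e2 := comm_conj r (fun k hk => Nn_conj r hk) d1
  rw [show r * (r⁻¹ * g * r⁻¹⁻¹) * r⁻¹ = g by group, rot_app, rot_app] at e2
  obtain ⟨k, hk, k1, k2⟩ := sq C (p := q) (a := u) (b := v) (q := p) (s := max q (-δ + z))
    (t := min p (δ + z)) a b b3.le (le_max_left _ _)
    (max_lt (lt_min (by linarith) (by linarith)) (lt_min (by linarith) (by linarith)))
    (min_le_left _ _)
  have e3 := comm_conj (Q := Nn C u v) k⁻¹ (fun h hh => Nn_mono ?_ ?_ (Nn_conj k⁻¹ hh)) e2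
  · have e4 : Commute g k := comm_of_fix c fun x d e => Nn_fix hk d e
    rwa [inv_inv, mul_assoc, e4.eq, inv_mul_cancel_left] at e3
  · exact k.1.symm_apply_le.2 ((le_max_right _ _).trans k1.le)
  · exact k.1.le_symm_apply.2 (k2.le.trans (min_le_right _ _))

theorem nf {u v : ℝ} (h1 : u ≤ v) (h2 : v < u + 1) : NF (Nn C u v) := by
  intro U hU
  have hn : U.normalCore.index ≠ 0 := Subgroup.FiniteIndex.index_ne_zero
  have key : ∀ a b : Nn C u v, ⁅a, b⁆ ∈ U.normalCore := by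
    rintro a b
    obtain ⟨q₁, p₁, a1, a2, a3⟩ := a.2
    obtain ⟨q₂, p₂, b1, b2, b3⟩ := b.2
    obtain ⟨q, q0, q1⟩ := exists_between (max_lt (max_lt a1 b1) (by linarith : v - 1 < u))
    simp only [max_lt_iff] at q0
    obtain ⟨p, p0, p1⟩ := exists_between (lt_min (lt_min a2 b2) (by linarith : v < q + 1))
    simp only [lt_min_iff] at p1
    obtain ⟨t, ht, t1, -⟩ := sq C (p := v) (a := p) (b := p) (q := u + 1) (s := q + 1) (t := u + 1)
      p0 (by linarith) (by linarith) (by linarith) (by linarith) le_rfl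
    have ht' := Nn_pred ht
    have t2 : ∀ j : ℕ, q + 1 < (t ^ (j + 1)).1 p := by
      intro j
      induction j with
      | zero => simpa using t1
      | succ j ih =>
        rw [pow_succ']
        exact t1.trans (t.1.strictMono (by linarith : p < (t ^ (j + 1)).1 p))
    obtain ⟨j, hj⟩ := Nat.exists_eq_succ_of_ne_zero hn
    have t3 : (t ^ (j + 1)).1 q ≤ p := by
      have := (t ^ (j + 1)).1.monotone q1.le
      rw [Nn_fix ((Nn C u v).pow_mem ht' _) le_rfl h1] at this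
      linarith
    have t4 : Commute a.1 (t ^ (j + 1) * b.1 * (t ^ (j + 1))⁻¹) :=
      comm_of_fix (u := q) (v := p) (fun x c d => a3 x (by linarith) (by linarith)) fun x c d =>
        conj_fix (q := q) (p := p) (fun x c d => b3 x (by linarith) (by linarith)) (t3.trans c)
          (d.trans (t2 j).le)
    have t5 : (⟨t, ht'⟩ : Nn C u v) ^ (j + 1) ∈ U.normalCore := by
      rw [← Nat.succ_eq_add_one, ← hj]
      exact Subgroup.pow_index_mem _ _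
    have t6 : Commute a ((⟨t, ht'⟩ : Nn C u v) ^ (j + 1) * b * ((⟨t, ht'⟩ : Nn C u v) ^ (j + 1))⁻¹) :=
      Subtype.ext t4
    have t7 := t6.map (QuotientGroup.mk' U.normalCore)
    rw [map_mul, map_mul, map_inv, show QuotientGroup.mk' U.normalCore
      ((⟨t, ht'⟩ : Nn C u v) ^ (j + 1)) = 1 from (QuotientGroup.eq_one_iff _).2 t5, one_mul, inv_one,
      mul_one] at t7
    rw [← QuotientGroup.eq_one_iff]
    exact (map_commutatorElement (QuotientGroup.mk' U.normalCore) a b).trans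
      (commutatorElement_eq_one_iff_commute.2 t7)
  refine top_le_iff.1 fun g _ => U.normalCore_le ?_
  have h3 := perf (C := C) h1 g.2
  rw [← Subgroup.map_subtype_commutator] at h3
  obtain ⟨k, hk, e⟩ := h3
  obtain rfl : k = g := Subtype.ext e
  exact (Subgroup.commutator_le.2 fun a _ b _ => key a b) hk

theorem two1 {S : Subgroup C.G} {u v u' v' : ℝ} (h1 : u ≤ v) (h2 : v < u') (h3 : u' ≤ v')
    (h4 : v' < u + 1) (s1 : Nn C u v ≤ S) (s2 : Nn C u' v' ≤ S) : C.Gx u ≤ S.map C.G.subtype := by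
  intro g hg
  have e1 : ∀ᶠ z in 𝓝 u, g z = z := hg.2
  obtain ⟨ε, ε0, hε⟩ := Metric.eventually_nhds_iff.1 e1
  obtain ⟨a, a1, a2⟩ := exists_between (by linarith : v' - 1 < u)
  obtain ⟨b, b1, b2⟩ := exists_between h2
  obtain ⟨k, hk, k1, k2⟩ := sq C (p := v' - 1) (a := a) (b := b) (q := u') (s := max (v' - 1) (u - ε))
    (t := min u' (u + ε)) a1 b2 (by linarith) (le_max_left _ _)
    (max_lt (lt_min (by linarith) (by linarith)) (lt_min (by linarith) (by linarith)))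
    (min_le_left _ _)
  rw [sub_add_cancel] at hk
  have k3 := (max_lt_iff.1 k1).2
  have k4 := (lt_min_iff.1 k2).2
  have e2 : k⁻¹ * ⟨g, hg.1⟩ * k⁻¹⁻¹ ∈ Nn C u v := by
    refine ⟨a, b, a2, b1, fun x c d => conj_fix (q := k.1 a) (p := k.1 b) (fun y e f => hε ?_) ?_ ?_⟩
    · rw [Real.dist_eq, abs_lt]; constructor <;> linarith
    · exact k.1.symm_apply_le.2 (k.1.monotone c)
    · exact k.1.le_symm_apply.2 (k.1.monotone d)
  refine ⟨⟨g, hg.1⟩, ?_, rfl⟩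
  have e3 := S.mul_mem (S.mul_mem (s2 hk) (s1 e2)) (S.inv_mem (s2 hk))
  rwa [show k * (k⁻¹ * ⟨g, hg.1⟩ * k⁻¹⁻¹) * k⁻¹ = ⟨g, hg.1⟩ by group] at e3

/-- two disjoint arcs -/
theorem two {S : Subgroup C.G} {u v u' v' : ℝ} (h1 : u ≤ v) (h2 : v < u') (h3 : u' ≤ v')
    (h4 : v' < u + 1) (s0 : rot C 1 C.A.one_mem ∈ S) (s1 : Nn C u v ≤ S) (s2 : Nn C u' v' ≤ S)
    (g : C.G) : g ∈ S := by
  have e := hTwo C (S.map C.G.subtype) u u' (fun k hk => ?_) ⟨_, s0, rfl⟩ (two1 h1 h2 h3 h4 s1 s2)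
    (two1 (u' := u + 1) (v' := v + 1) h3 h4 (by linarith) (by linarith) s2
      fun g hg => s1 (Nn_pred hg)) g.2
  · obtain ⟨k, hk, e⟩ := e
    obtain rfl : k = g := Subtype.ext e
    exact hk
  · have a1 : (0 : ℝ) < k := by linarith
    have a2 : (k : ℝ) < 1 := by linarith
    have a3 : 0 < k := by exact_mod_cast a1
    have a4 : k < 1 := by exact_mod_cast a2
    omega

end Pool.Agent.MP_3aea93_al.H72
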