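import Pool.Agent.MP_3aea93_al.H75.Stmt

/-! Relative property FW and jumps of piecewise linear maps: the definitions used in the
statement. -/

set_option autoImplicit false

namespace Pool.Agent.MP_3aea93_al.H72

open Filter Topology

/-- relative property FW of a subset `E` of a group `G`: for every action of `G` on a set `X` and
every subset `M` of `X` such that all the symmetric differences of `g M` and `M` are finite, their
cardinal is bounded on `E` -/
def RelFW (G : Type) [Group G] (E : Set G) : Prop :=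
  ∀ (X : Type) (ρ : G →* Equiv.Perm X) (M : Set X), (∀ g, (symmDiff (ρ g '' M) M).Finite) →
    ∃ c : ℕ, ∀ g ∈ E, (symmDiff (ρ g '' M) M).ncard ≤ c

/-- `F` is affine on each side of `x`, and the right slope is `s` times the left slope -/
def Jump (F : ℝ → ℝ) (x s : ℝ) : Prop :=
  ∃ l c c' : ℝ, (∀ᶠ y in 𝓝[≤] x, F y = l * y + c) ∧ ∀ᶠ y in 𝓝[≥] x, F y = s * l * y + c'

/-- at most `N` breakpoints modulo one, and all the jumps lie in `J` -/
def Jumps (N : ℕ) (J : Finset ℝ) (F : ℝ → ℝ) : Prop :=
  ∃ B : Finset ℝ, B.card ≤ N ∧ ∀ x, (Int.fract x ∉ B → Jump F x 1) ∧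
    (Int.fract x ∈ B → ∃ s ∈ J, Jump F x s)

end Pool.Agent.MP_3aea93_al.H72
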