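import Pool.Agent.MP_3aea93_al.H72.Rot
import Pool.Agent.MP_3aea93_al.H72.Stmt
import Pool.Agent.MP_3aea93_al.H75.Lit

/-! Removing the breakpoints one at a time. -/

set_option autoImplicit false

namespace Pool.Agent.MP_3aea93_al.H72

open Set Filter Topology H75

theorem uniq_ge {l c l' c' x : ℝ} (h : ∀ᶠ y in 𝓝[≥] x, l * y + c = l' * y + c') :
    l = l' ∧ c = c' := by
  obtain ⟨w, hw, e⟩ := mem_nhdsGE_iff_exists_Icc_subset.1 h
  have a : l * x + c = l' * x + c' := e ⟨le_rfl, hw.le⟩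
  have b : l * w + c = l' * w + c' := e ⟨hw.le, le_rfl⟩
  have d : l = l' := mul_right_cancel₀ (sub_pos.2 hw).ne' (by linarith)
  exact ⟨d, by rw [d] at a; linarith⟩

theorem uniq_le {l c l' c' x : ℝ} (h : ∀ᶠ y in 𝓝[≤] x, l * y + c = l' * y + c') :
    l = l' ∧ c = c' := by
  obtain ⟨w, hw, e⟩ := mem_nhdsLE_iff_exists_Icc_subset.1 h
  have a : l * x + c = l' * x + c' := e ⟨hw.le, le_rfl⟩
  have b : l * w + c = l' * w + c' := e ⟨le_rfl, hw.le⟩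
  have d : l = l' := mul_right_cancel₀ (sub_pos.2 hw).ne' (by linarith)
  exact ⟨d, by rw [d] at a; linarith⟩

theorem Jump.post {F F' : ℝ → ℝ} {x s a b : ℝ} (h : Jump F x s)
    (e : ∀ᶠ y in 𝓝 x, F' y = a * F y + b) : Jump F' x s := by
  obtain ⟨l, c, c', h1, h2⟩ := h
  refine ⟨a * l, a * c + b, a * c' + b, ?_, ?_⟩
  · filter_upwards [h1, e.filter_mono nhdsWithin_le_nhds] with y p q
    rw [q, p]; ring
  · filter_upwards [h2, e.filter_mono nhdsWithin_le_nhds] with y p q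
    rw [q, p]; ring

variable {C : Ctx}

theorem Jump.slopes {F : ℝ ≃o ℝ} (hF : F ∈ C.P) {x s : ℝ} (h : Jump F x s) :
    ∃ l ∈ C.L, s * l ∈ C.L ∧ ∃ c ∈ C.A, ∃ c' : ℝ, (∀ᶠ y in 𝓝[≤] x, F y = l * y + c) ∧
      ∀ᶠ y in 𝓝[≥] x, F y = s * l * y + c' := by
  obtain ⟨l, c, c', h1, h2⟩ := h
  obtain ⟨⟨m, hm, d, -, e⟩, ⟨m', hm', d', hd', e'⟩, -⟩ := hF x
  obtain ⟨rfl, rfl⟩ := uniq_le ((h1.and e').mono fun y p => p.1.symm.trans p.2)
  obtain ⟨rfl, rfl⟩ := uniq_ge ((h2.and e).mono fun y p => p.1.symm.trans p.2)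
  exact ⟨l, hm', hm, c, hd', c', h1, h2⟩

theorem Jump.mem {F : ℝ ≃o ℝ} (hF : F ∈ C.P) {x s : ℝ} (h : Jump F x s) : s ∈ C.L := by
  obtain ⟨l, hl, hs, -⟩ := h.slopes hF
  have := C.L.mul_mem hs (C.inv l hl)
  rwa [mul_inv_cancel_right₀ (C.pos l hl).ne'] at this

theorem Jump.aff {F : ℝ ≃o ℝ} (hF : F ∈ C.P) {x : ℝ} (h : Jump F x 1) : C.Aff F (𝓝 x) := by
  obtain ⟨l, hl, -, c, hc, c', h1, h2⟩ := h.slopes hF
  have a := h1.self_of_nhdsWithin (mem_Iic.2 le_rfl)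
  have b := h2.self_of_nhdsWithin (mem_Ici.2 le_rfl)
  refine ⟨l, hl, c, hc, ?_⟩
  rw [← nhdsLE_sup_nhdsGE, eventually_sup]
  exact ⟨h1, h2.mono fun y p => by rw [p]; linarith⟩

theorem jump_of_aff {F : ℝ → ℝ} {x : ℝ} (h : C.Aff F (𝓝 x)) : Jump F x 1 :=
  let ⟨l, _, c, _, e⟩ := h
  ⟨l, c, c, e.filter_mono nhdsWithin_le_nhds,
    (e.filter_mono nhdsWithin_le_nhds).mono fun y p => by rw [p, one_mul]⟩

/-- on `[u, v]` the breakpoints lie in `B` and the jumps in `J` -/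
def Br (J : Finset ℝ) (F : ℝ → ℝ) (u v : ℝ) (B : Finset ℝ) : Prop :=
  ∀ x, u ≤ x → x ≤ v → (x ∉ B → Jump F x 1) ∧ (x ∈ B → ∃ s ∈ J, Jump F x s)

theorem Br.base {J : Finset ℝ} {F : ℝ ≃o ℝ} (hF : F ∈ C.P) {u v : ℝ} (huv : u ≤ v)
    (h : Br J F u v ∅) : ∃ μ ∈ C.L, ∃ c ∈ C.A, ∃ q p, q < u ∧ v < p ∧
      ∀ x, q ≤ x → x ≤ p → F x = μ * x + c := by
  have a : ∀ x, u ≤ x → x ≤ v → C.Aff F (𝓝 x) := fun x p q =>
    ((h x p q).1 (Finset.notMem_empty x)).aff hF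
  obtain ⟨l, hl, c, -, e⟩ := a u le_rfl huv
  obtain ⟨l', hl', c', -, e'⟩ := a v huv le_rfl
  obtain ⟨q, q', q1, q2⟩ := mem_nhds_iff_exists_Ioo_subset.1 e.eventually_nhds
  obtain ⟨p', p, p1, p2⟩ := mem_nhds_iff_exists_Ioo_subset.1 e'.eventually_nhds
  obtain ⟨μ, hμ, d, hd, f⟩ := Lit.closed (Ctx.mem_A hF) (a := q) (b := p) (by linarith [q1.1, p1.2])
    fun y hy => by
      rcases lt_or_ge y u with s | s
      · exact ⟨l, hl, c, q2 ⟨hy.1, s.trans q1.2⟩⟩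
      rcases le_or_gt y v with t | t
      · obtain ⟨m, hm, d, -, f⟩ := a y s t
        exact ⟨m, hm, d, f⟩
      · exact ⟨l', hl', c', p2 ⟨p1.1.trans t, hy.2⟩⟩
  exact ⟨μ, hμ, d, hd, q, p, q1.1, p1.2, fun x s t => f x ⟨s, t⟩⟩

theorem OS.inv_ge {k : ℝ ≃o ℝ} {z s y : ℝ} (h : OS k z s) (s0 : 0 < s) (hy : z ≤ y) :
    k⁻¹ y = z + s⁻¹ * (y - z) :=
  inv_eq_of (by
    rw [h.2 _ (by nlinarith [inv_pos.2 s0])]
    field_simp; ring)

theorem Br.step {J B : Finset ℝ} {F : ℝ ≃o ℝ} (hF : F ∈ C.P) {u v x : ℝ} (hx : x ∉ B)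
    (h : Br J F u v (insert x B)) : Br J F u v B ∨ (u ≤ x ∧ x ≤ v ∧ F x ∈ C.A ∧
      ∃ s ∈ J, s ∈ C.L ∧ ∃ k ∈ C.P, OS k (F x) s ∧ Br J (k⁻¹ * F : ℝ ≃o ℝ) u v B) := by
  by_cases a : u ≤ x ∧ x ≤ v ∧ x ∈ C.A
  swap
  · refine Or.inl fun y p q => ⟨fun r => ?_, fun r => (h y p q).2 (Finset.mem_insert_of_mem r)⟩
    by_cases b : y = x
    · subst b
      exact jump_of_aff ((hF y).2.2 fun t => a ⟨p, q, t⟩)
    · exact (h y p q).1 fun t => (Finset.mem_insert.1 t).elim b r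
  obtain ⟨a1, a2, a3⟩ := a
  obtain ⟨s, hs, j⟩ := (h x a1 a2).2 (Finset.mem_insert_self _ _)
  have sL := j.mem hF
  have s0 := C.pos s sL
  have fA := (Ctx.mem_A hF x).2 a3
  obtain ⟨k, hk, k1, k2⟩ := Ext.exists_R rowGlue C fA sL
  have o : OS k (F x) s := ⟨k1, k2⟩
  have lo : ∀ y, y ≤ x → (k⁻¹ * F : ℝ ≃o ℝ) y = 1 * F y + 0 := fun y p => by
    rw [mul_app, inv_eq_of (k1 _ (F.monotone p))]; ring
  have hi : ∀ y, x ≤ y → (k⁻¹ * F : ℝ ≃o ℝ) y = s⁻¹ * F y + (F x - s⁻¹ * F x) := fun y p => by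
    rw [mul_app, o.inv_ge s0 (F.monotone p)]; ring
  have tr : ∀ y t, y ≠ x → Jump F y t → Jump (k⁻¹ * F : ℝ ≃o ℝ) y t := fun y t b d => by
    rcases lt_or_gt_of_ne b with f | f
    · exact d.post ((eventually_le_nhds f).mono lo)
    · exact d.post ((eventually_ge_nhds f).mono hi)
  refine Or.inr ⟨a1, a2, fA, s, hs, sL, k, hk, o, fun y p q => ⟨fun r => ?_, fun r => ?_⟩⟩
  · by_cases b : y = x
    · subst b
      obtain ⟨l, c, c', j1, j2⟩ := j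
      refine ⟨l, c, s⁻¹ * c' + (F y - s⁻¹ * F y), ?_, ?_⟩
      · filter_upwards [j1, self_mem_nhdsWithin] with t f g
        rw [lo t g, f]; ring
      · filter_upwards [j2, self_mem_nhdsWithin] with t f g
        rw [hi t g, f]; field_simp; ring
    · exact tr y 1 b ((h y p q).1 fun t => (Finset.mem_insert.1 t).elim b r)
  · obtain ⟨t, ht, d⟩ := (h y p q).2 (Finset.mem_insert_of_mem r)
    exact ⟨t, ht, tr y t (fun b => hx (b ▸ r)) d⟩

theorem OS.lip {k : ℝ ≃o ℝ} {z s R x y : ℝ} (h : OS k z s) (s0 : 0 < s) (r1 : 1 ≤ R) (r2 : s ≤ R)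
    (r3 : s⁻¹ ≤ R) (hxy : x ≤ y) : k y - k x ≤ R * (y - x) ∧ y - x ≤ R * (k y - k x) := by
  have r4 : 1 ≤ R * s := by
    have := mul_le_mul_of_nonneg_right r3 s0.le
    rwa [inv_mul_cancel₀ s0.ne'] at this
  rcases le_total y z with a | a
  · rw [h.1 y a, h.1 x (hxy.trans a)]; constructor <;> nlinarith
  rcases le_total x z with b | b
  · rw [h.2 y a, h.1 x b]; constructor <;> nlinarith
  · rw [h.2 y a, h.2 x b]; constructor <;> nlinarith

/-- a bound for the jumps and their inverses -/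
theorem exR (J : Finset ℝ) : ∃ R : ℝ, 1 ≤ R ∧ ∀ s ∈ J, s ≤ R ∧ s⁻¹ ≤ R := by
  obtain ⟨a, ha⟩ := J.finite_toSet.bddAbove
  obtain ⟨b, hb⟩ := (J.finite_toSet.image fun s => s⁻¹).bddAbove
  exact ⟨max 1 (max a b), le_max_left _ _, fun s hs =>
    ⟨le_max_of_le_right (le_max_of_le_left (ha hs)),
      le_max_of_le_right (le_max_of_le_right (hb ⟨s, hs, rfl⟩))⟩⟩

theorem Br.slope {J : Finset ℝ} {R : ℝ} (r1 : 1 ≤ R) (r2 : ∀ s ∈ J, s ≤ R ∧ s⁻¹ ≤ R) {u v : ℝ}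
    (huv : u ≤ v) (B : Finset ℝ) : ∀ F ∈ C.P, Br J F u v B → ∃ μ : ℝ, 0 < μ ∧
      ∀ x y, u ≤ x → x ≤ y → y ≤ v →
        F y - F x ≤ R ^ B.card * μ * (y - x) ∧ μ * (y - x) ≤ R ^ B.card * (F y - F x) := by
  induction B using Finset.induction_on with
  | empty =>
    intro F hF h
    obtain ⟨μ, hμ, c, -, q, p, a, b, e⟩ := h.base hF huv
    refine ⟨μ, C.pos μ hμ, fun x y d f g => ?_⟩
    rw [e x (by linarith) (by linarith), e y (by linarith) (by linarith)]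
    constructor <;> simp <;> linarith
  | insert x B hx ih =>
    intro F hF h
    have p0 : 0 < R ^ B.card := pow_pos (by linarith) _
    rw [Finset.card_insert_of_notMem hx, pow_succ']
    rcases h.step hF hx with a | ⟨-, -, -, s, hs, sL, k, hk, o, a⟩
    · obtain ⟨μ, m0, e⟩ := ih F hF a
      refine ⟨μ, m0, fun x y d f g => ?_⟩
      obtain ⟨e1, e2⟩ := e x y d f g
      have e3 := sub_nonneg.2 (F.monotone f)
      have e4 := mul_nonneg p0.le e3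
      constructor <;> nlinarith
    · obtain ⟨μ, m0, e⟩ := ih _ (C.P.mul_mem (C.P.inv_mem hk) hF) a
      refine ⟨μ, m0, fun x y d f g => ?_⟩
      obtain ⟨e1, e2⟩ := e x y d f g
      obtain ⟨e3, e4⟩ := o.lip (C.pos s sL) r1 (r2 s hs).1 (r2 s hs).2
        ((k⁻¹ * F : ℝ ≃o ℝ).monotone f)
      simp only [mul_app, apply_inv] at e1 e2 e3 e4
      constructor <;> nlinarith

variable {X : Type} [MulAction C.G X] {M : Set X} (hf : ∀ g : C.G, (Sd M g).Finite)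
  (h1 : ∀ y : X, rot C 1 C.A.one_mem • y = y) (hR : RotB C M)
include hf h1 hR

theorem Br.cost (J : Finset ℝ) {w : ℝ} (w0 : 0 < w) (w1 : w < 1) (j : ℕ) :
    ∃ ε : ℝ, 0 < ε ∧ ∃ K, ∀ B : Finset ℝ, B.card ≤ j → ∀ F ∈ C.P, ∀ u v, u < v → v ≤ u + w →
      Br J F u v B → (∀ x y, u ≤ x → x ≤ y → y ≤ v → F y - F x ≤ ε * (y - x)) → Loc C M F u v K := by
  classical
  induction j with
  | zero =>
    obtain ⟨ε, e0, K, hK⟩ := affL hf h1 hR w0 w1
    refine ⟨ε, e0, K, fun B hB F hF u v a b h c => ?_⟩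
    obtain rfl := Finset.card_eq_zero.1 (Nat.le_zero.1 hB)
    obtain ⟨μ, hμ, d, hd, q, p, f, g, e⟩ := h.base hF a.le
    have i := c u v le_rfl a.le le_rfl
    rw [e u f.le (by linarith), e v (by linarith) g.le] at i
    exact ((hK μ hμ (by nlinarith) d hd u).mono hf le_rfl b).near f g fun x s t => (e x s t).symm
  | succ j ih =>
    obtain ⟨ε, e0, K, hK⟩ := ih
    obtain ⟨R, r1, r2⟩ := exR J
    have r0 : 0 < R := by linarith
    have t0 : 0 < 1 / (3 * R) := by positivity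
    have t1 : 1 / (3 * R) * R = 1 / 3 := by field_simp
    generalize 1 / (3 * R) = t at t0 t1
    have ch : ∀ s : ℝ, ∃ K : ℕ, s ∈ J → s ∈ C.L → ∀ z ∈ C.A, ∀ k, OS k z s →
        Loc C M k (z - t) (z + t) K := fun s => by
      by_cases a : s ∈ J ∧ s ∈ C.L
      · obtain ⟨K, hK⟩ := os hf hR a.2 t0 (by nlinarith) (by nlinarith [(r2 s a.1).1])
        exact ⟨K, fun _ _ => hK⟩
      · exact ⟨0, fun b c => absurd ⟨b, c⟩ a⟩
    choose Ks hKs using ch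
    have m0 : 0 < min ε t := lt_min e0 t0
    have m1 := min_le_left ε t
    have m2 := min_le_right ε t
    generalize min ε t = m at m0 m1 m2
    have m3 : R * (m / R) = m := by field_simp
    have m4 : m / R ≤ m := div_le_self m0.le r1
    refine ⟨m / R, div_pos m0 r0, J.sup Ks + K, fun B hB F hF u v a b h c => ?_⟩
    have c' : ∀ x y, u ≤ x → x ≤ y → y ≤ v → F y - F x ≤ ε * (y - x) := fun x y d f g =>
      (c x y d f g).trans (mul_le_mul_of_nonneg_right (m4.trans m1) (sub_nonneg.2 f))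
    rcases B.eq_empty_or_nonempty with rfl | ⟨x, hx⟩
    · exact (hK ∅ (Nat.zero_le _) F hF u v a b h c').le (by omega)
    have hB' : (B.erase x).card ≤ j := by rw [Finset.card_erase_of_mem hx]; omega
    rw [← Finset.insert_erase hx] at h
    rcases h.step hF (Finset.notMem_erase x B) with d | ⟨x1, x2, fA, s, hs, sL, k, hk, o, d⟩
    · exact (hK _ hB' F hF u v a b d c').le (by omega)
    have lip : ∀ x y, u ≤ x → x ≤ y → y ≤ v →
        (k⁻¹ * F : ℝ ≃o ℝ) y - (k⁻¹ * F : ℝ ≃o ℝ) x ≤ m * (y - x) := fun x y p q r => by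
      have e3 := (o.lip (C.pos s sL) r1 (r2 s hs).1 (r2 s hs).2
        ((k⁻¹ * F : ℝ ≃o ℝ).monotone q)).2
      simp only [mul_app, apply_inv] at e3 ⊢
      have e4 := mul_le_mul_of_nonneg_left (c x y p q r) r0.le
      rw [← mul_assoc, m3] at e4
      linarith
    have fx : (k⁻¹ * F : ℝ ≃o ℝ) x = F x := by rw [mul_app, inv_eq_of (o.1 _ le_rfl)]
    have l1 := lip u x le_rfl x1 x2
    have l2 := lip x v x1 x2 le_rfl
    rw [fx] at l1 l2
    have g := (hK _ hB' _ (C.P.mul_mem (C.P.inv_mem hk) hF) u v a b d fun x y p q r =>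
      (lip x y p q r).trans (mul_le_mul_of_nonneg_right m1 (sub_nonneg.2 q))).comp hf
      (hKs s hs sL _ fA k o) a.le (by nlinarith) (by nlinarith)
    exact (g.congr fun y => by rw [mul_app, apply_inv]).le
      (Nat.add_le_add_right (Finset.le_sup hs) K)

/-- bounded cost along proper arcs with proper image -/
theorem Br.big (J : Finset ℝ) {w R : ℝ} (w0 : 0 < w) (w1 : w < 1) (r0 : 0 < R) (j : ℕ) :
    ∃ K, ∀ B : Finset ℝ, B.card ≤ j → ∀ F ∈ C.P, ∀ u v, u < v → v ≤ u + w → F v ≤ F u + w →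
      Br J F u v B → (∀ x y, u ≤ x → x ≤ y → y ≤ v → F y - F x ≤ R * (y - x)) → Loc C M F u v K := by
  obtain ⟨ε, e0, K, hK⟩ := Br.cost hf h1 hR J w0 w1 j
  obtain ⟨r, hr, a⟩ := C.exists_small (lt_min (div_pos e0 r0) one_pos)
  obtain ⟨a1, a2⟩ := lt_min_iff.1 a
  rw [lt_div_iff₀ r0] at a1
  have a0 := C.pos r hr
  obtain ⟨k, hk⟩ := dil hf h1 (w := r * w) (C.inv r hr) (mul_pos a0 w0).le (by nlinarith)
    (by rwa [inv_mul_cancel_left₀ a0.ne'])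
  refine ⟨k + K, fun B hB F hF u v b c d h e => ?_⟩
  have ap : ∀ y, (af r a0 0 * F : ℝ ≃o ℝ) y = r * F y + 0 := fun y => rfl
  have g := hK B hB _ (C.P.mul_mem (af_mem hr C.A.zero_mem) hF) u v b c (fun x p q =>
    ⟨fun t => ((h x p q).1 t).post (Eventually.of_forall ap), fun t =>
      let ⟨s, hs, i⟩ := (h x p q).2 t; ⟨s, hs, i.post (Eventually.of_forall ap)⟩⟩)
    fun x y p q t => by
      rw [ap, ap]
      have := mul_le_mul_of_nonneg_left (e x y p q t) a0.le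
      nlinarith
  refine (g.comp hf (hk _) b.le le_rfl ?_).congr fun y => ?_
  · rw [ap, ap]; nlinarith
  · rw [ap]; field_simp; ring

end Pool.Agent.MP_3aea93_al.H72
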