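import Pool.Agent.MP_3aea93_al.H72.Main
import Pool.Agent.MP_3aea93_al.H75.Main
import Pool.Agent.MP_3aea93_al.H75.Lift

/-! The actions attached to the jumps, and the passage to the circle group. -/

set_option autoImplicit false

namespace Pool.Agent.MP_3aea93_al.H72

open Set Filter Topology H75

theorem sd_image {H X : Type} [Group H] [MulAction H X] (M : Set X) (g : H) :
    symmDiff ((fun y => g • y) '' M) M = (fun y => g • y) '' Sd M g := by
  ext y
  obtain ⟨x, rfl⟩ := MulAction.surjective g y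
  rw [mem_symmDiff, (MulAction.injective g).mem_set_image, (MulAction.injective g).mem_set_image]
  show _ ↔ ¬(g • x ∈ M ↔ x ∈ M)
  tauto

theorem sd_ncard {H X : Type} [Group H] [MulAction H X] (M : Set X) (g : H) :
    (symmDiff ((fun y => g • y) '' M) M).ncard = (Sd M g).ncard := by
  rw [sd_image, ncard_image_of_injective _ (MulAction.injective g)]

theorem sd_finite {H X : Type} [Group H] [MulAction H X] (M : Set X) (g : H) :
    (symmDiff ((fun y => g • y) '' M) M).Finite ↔ (Sd M g).Finite := by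
  rw [sd_image, finite_image_iff (MulAction.injective g).injOn]

/-- An integer cocycle with finite supports is bounded on a set with relative property FW. -/
theorem cocycle {G Z : Type} [Group G] {E : Set G} (hE : RelFW G E) (π : G →* Equiv.Perm Z)
    (c : G → Z → ℤ) (hc : ∀ g h z, c (g * h) z = c g (π h z) + c h z)
    (hs : ∀ g, {z | c g z ≠ 0}.Finite) :
    ∃ K : ℕ, ∀ g ∈ E, (∀ z, |c g z| ≤ K) ∧ {z | c g z ≠ 0}.ncard ≤ K := by
  have c1 : ∀ z, c 1 z = 0 := fun z => by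
    have := hc 1 1 z
    rw [one_mul, map_one, Equiv.Perm.one_apply] at this
    linarith
  let _ : MulAction G (Z × ℤ) :=
    { smul := fun g p => (π g p.1, p.2 + c g p.1)
      one_smul := fun p => Prod.ext (by show π 1 p.1 = p.1; simp)
        (by show p.2 + c 1 p.1 = p.2; rw [c1, add_zero])
      mul_smul := fun g h p => Prod.ext (by show π (g * h) p.1 = π g (π h p.1); simp)
        (by show p.2 + c (g * h) p.1 = p.2 + c h p.1 + c g (π h p.1); rw [hc]; ring) }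
  have mem : ∀ (g : G) (z : Z) (m : ℤ), (z, m) ∈ Sd {p : Z × ℤ | 0 ≤ p.2} g ↔
      ¬(0 ≤ m + c g z ↔ 0 ≤ m) := fun _ _ _ => Iff.rfl
  have fi : ∀ g : G, (Sd {p : Z × ℤ | 0 ≤ p.2} g).Finite := fun g => by
    refine ((hs g).biUnion (t := fun z => (fun m => (z, m)) '' Icc (-|c g z|) |c g z|)
      fun z _ => (finite_Icc _ _).image _).subset ?_
    rintro ⟨z, m⟩ h
    rw [mem] at h
    refine mem_biUnion (x := z) (fun a => h (by rw [a, add_zero])) ⟨m, ?_, rfl⟩
    rcases abs_cases (c g z) with a | a <;> constructor <;> omega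
  obtain ⟨K, hK⟩ := hE (Z × ℤ) (MulAction.toPermHom G _) {p : Z × ℤ | 0 ≤ p.2}
    fun g => (sd_finite _ g).2 (fi g)
  refine ⟨K, fun g hg => ?_⟩
  have h := (sd_ncard _ g).symm.trans_le (hK g hg)
  refine ⟨fun z => ?_, le_trans ?_ h⟩
  · have a : (fun m => (z, m)) '' (Finset.Ico (min 0 (-c g z)) (max 0 (-c g z)) : Set ℤ) ⊆
        Sd {p : Z × ℤ | 0 ≤ p.2} g := by
      rintro _ ⟨m, hm, rfl⟩
      rw [Finset.mem_coe, Finset.mem_Ico] at hm
      rw [mem]
      omega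
    have b := (ncard_le_ncard a (fi g)).trans h
    rw [ncard_image_of_injective _ (Prod.mk_right_injective z), ncard_coe_finset, Int.card_Ico] at b
    rcases abs_cases (c g z) with d | d <;> omega
  · refine ncard_le_ncard_of_injOn (fun z => (z, if 0 < c g z then -1 else 0)) (fun z hz => ?_)
      (fun z _ w _ e => congrArg Prod.fst e) (fi g)
    rw [mem]
    have : c g z ≠ 0 := hz
    split_ifs <;> omega

variable {C : Ctx}

theorem exJump {F : ℝ ≃o ℝ} (hF : F ∈ C.P) (x : ℝ) : ∃ s, Jump F x s := by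
  obtain ⟨⟨m, -, d, -, e⟩, ⟨l, hl, c, -, e'⟩, -⟩ := hF x
  exact ⟨m / l, l, c, d, e', by rwa [div_mul_cancel₀ _ (C.pos l hl).ne']⟩

theorem Jump.uniq {F : ℝ ≃o ℝ} (hF : F ∈ C.P) {x s t : ℝ} (h : Jump F x s) (h' : Jump F x t) :
    s = t := by
  obtain ⟨l, hl, -, c, -, c', a, b⟩ := h.slopes hF
  obtain ⟨m, d, d', a', b'⟩ := h'
  obtain ⟨rfl, -⟩ := uniq_le ((a.and a').mono fun y p => p.1.symm.trans p.2)
  exact mul_right_cancel₀ (C.pos l hl).ne'
    (uniq_ge ((b.and b').mono fun y p => p.1.symm.trans p.2)).1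

theorem Jump.comp {F : ℝ → ℝ} {G : ℝ ≃o ℝ} {x s t : ℝ} (h : Jump F (G x) s) (h' : Jump G x t) :
    Jump (fun y => F (G y)) x (s * t) := by
  obtain ⟨l, c, c', a, b⟩ := h
  obtain ⟨m, d, d', a', b'⟩ := h'
  refine ⟨l * m, l * d + c, s * l * d' + c', ?_, ?_⟩
  · filter_upwards [(Ctx.tendsto_le G x).eventually a, a'] with y p q
    rw [p, q]; ring
  · filter_upwards [(Ctx.tendsto_ge G x).eventually b, b'] with y p q
    rw [p, q]; ring

theorem Jump.shift (g : C.G) {x s : ℝ} (j : ℤ) (h : Jump g.1 x s) : Jump g.1 (x + j) s := by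
  have a : Jump g.1 (tr (-j) (x + j)) s := by rwa [tr_app, add_neg_cancel_right]
  have b := a.comp (t := 1) ⟨1, -j, -j, Eventually.of_forall fun y => by rw [tr_app, one_mul],
    Eventually.of_forall fun y => by rw [tr_app, one_mul, one_mul]⟩
  rw [mul_one] at b
  refine b.post (a := 1) (b := j) (Eventually.of_forall fun y => ?_)
  rw [tr_app, one_mul, ← per, neg_add_cancel_right]

variable {k : ℕ} {n : Fin k → ℕ}

theorem exLift (hA : (C.A : Set ℝ) = ring n) (hL : (C.L : Set ℝ) = slopes n) (g : TS n) :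
    ∃ F : C.G, IsLift g F.1 := by
  obtain ⟨g, hg⟩ := g
  induction hg using Subgroup.closure_induction with
  | mem f hf =>
    obtain ⟨F, h1, h2⟩ := hf
    rw [← hA, ← hL] at h1
    exact ⟨⟨F, (rowLit C F).1 h1⟩, h2⟩
  | one => exact ⟨1, fun _ => rfl⟩
  | mul f g _ _ h1 h2 =>
    obtain ⟨F, a⟩ := h1
    obtain ⟨G, b⟩ := h2
    exact ⟨F * G, fun x => Lift.lift_mul a b x⟩
  | inv f _ h1 =>
    obtain ⟨F, a⟩ := h1
    refine ⟨F⁻¹, fun x => ?_⟩
    show f⁻¹ x = ((F.1⁻¹ x : ℝ) : UnitAddCircle)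
    rw [Equiv.Perm.inv_eq_iff_eq]
    have := a (F.1⁻¹ x)
    rw [apply_inv] at this
    exact this.symm

theorem exExp (hn : ∀ i, 1 < n i) (hi : LinearIndependent ℤ fun i => Real.log (n i))
    (hL : (C.L : Set ℝ) = slopes n) : ∃ ex : ℝ → Fin k → ℤ,
      (∀ l ∈ C.L, l = ∏ i, (n i : ℝ) ^ ex l i) ∧ ex 1 = 0 ∧
        ∀ l ∈ C.L, ∀ m ∈ C.L, ex (l * m) = ex l + ex m := by
  have a : ∀ l : ℝ, ∃ e : Fin k → ℤ, l ∈ C.L → l = ∏ i, (n i : ℝ) ^ e i := fun l => by
    by_cases h : l ∈ C.L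
    · have b : l ∈ slopes n := hL ▸ h
      exact b.imp fun _ c _ => c
    · exact ⟨0, fun b => absurd b h⟩
  choose ex hex using a
  have n0 := CtxR.n_pos hn
  have u : ∀ e e' : Fin k → ℤ, ∏ i, (n i : ℝ) ^ e i = ∏ i, (n i : ℝ) ^ e' i → e = e' := by
    intro e e' h
    have b := congrArg Real.log h
    rw [Real.log_prod fun i _ => (zpow_pos (n0 i) _).ne',
      Real.log_prod fun i _ => (zpow_pos (n0 i) _).ne'] at b
    simp only [Real.log_zpow] at b
    exact funext (Fintype.linearIndependent_iffₛ.1 hi e e' (by simpa using b))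
  refine ⟨ex, hex, u _ _ ((hex 1 C.L.one_mem).symm.trans (by simp)), fun l hl m hm => u _ _ ?_⟩
  rw [← hex _ (C.L.mul_mem hl hm)]
  simp only [Pi.add_apply, zpow_add₀ (n0 _).ne', Finset.prod_mul_distrib]
  rw [← hex l hl, ← hex m hm]

theorem conv (hn : ∀ i, 1 < n i) (hi : LinearIndependent ℤ fun i => Real.log (n i))
    (hA : (C.A : Set ℝ) = ring n) (hL : (C.L : Set ℝ) = slopes n) {E : Set (TS n)}
    (hE : RelFW (TS n) E) : ∃ (N : ℕ) (J : Finset ℝ), ∀ g ∈ E, ∃ F : ℝ ≃o ℝ,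
      IsPL (ring n) (slopes n) F ∧ IsLift g F ∧ Jumps N J F := by
  classical
  obtain ⟨ex, x1, x2, x3⟩ := exExp hn hi hL
  have a : ∀ (g : TS n) (z : UnitAddCircle), ∃ s ∈ C.L, ∀ F : C.G, IsLift g F.1 → ∀ x : ℝ,
      (x : UnitAddCircle) = z → Jump F.1 x s := fun g z => by
    obtain ⟨F₀, h₀⟩ := exLift hA hL g
    obtain ⟨x₀, rfl⟩ := QuotientAddGroup.mk_surjective z
    obtain ⟨s, hs⟩ := exJump F₀.2.1 x₀
    refine ⟨s, hs.mem F₀.2.1, fun F hF x hx => ?_⟩
    obtain ⟨j, rfl⟩ := Main.coe_eq.1 hx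
    obtain ⟨i, hi⟩ := Lift.lift_diff F.1.continuous F₀.1.continuous hF h₀
    exact (hs.shift F₀ j).post (a := 1) (Eventually.of_forall fun y => by rw [hi, one_mul])
  choose jp j1 j2 using a
  have co : ∀ (g h : TS n) z, jp (g * h) z = jp g ((TS n).subtype h z) * jp h z := fun g h z => by
    obtain ⟨F, hF⟩ := exLift hA hL g
    obtain ⟨G, hG⟩ := exLift hA hL h
    obtain ⟨x, rfl⟩ := QuotientAddGroup.mk_surjective z
    exact (j2 (g * h) _ (F * G) (fun x => Lift.lift_mul hF hG x) x rfl).uniq (F * G).2.1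
      ((j2 g _ F hF (G.1 x) (hG x).symm).comp (j2 h _ G hG x rfl))
  have fi : ∀ g : TS n, {z | jp g z ≠ 1}.Finite := fun g => by
    obtain ⟨F, hF⟩ := exLift hA hL g
    obtain ⟨-, -, B, -, hB⟩ := (rowLit C F.1).2 F.2
    refine (B.finite_toSet.image fun x : ℝ => (x : UnitAddCircle)).subset fun z hz => ?_
    obtain ⟨x, rfl⟩ := QuotientAddGroup.mk_surjective z
    refine ⟨Int.fract x, ?_, Main.coe_eq.2 ⟨-⌊x⌋, by rw [Int.fract]; push_cast; ring⟩⟩
    by_contra b
    obtain ⟨l, -, c, e⟩ := hB x b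
    exact hz ((j2 g _ F hF x rfl).uniq F.2.1 ⟨l, c, c, e.filter_mono nhdsWithin_le_nhds,
      (e.filter_mono nhdsWithin_le_nhds).mono fun y p => by rw [p, one_mul]⟩)
  have sb : ∀ (g : TS n) i, {z | ex (jp g z) i ≠ 0} ⊆ {z | jp g z ≠ 1} := fun g i z hz e =>
    hz (by rw [e, x2]; rfl)
  choose K hK using fun i => cocycle hE (TS n).subtype (fun g z => ex (jp g z) i)
    (fun g h z => by rw [co, x3 _ (j1 _ _) _ (j1 _ _)]; rfl) fun g => (fi g).subset (sb g i)
  refine ⟨∑ i, K i, (Fintype.piFinset fun i => Finset.Icc (-(K i : ℤ)) (K i)).image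
    fun e => ∏ i, (n i : ℝ) ^ e i, fun g hg => ?_⟩
  obtain ⟨F, hF⟩ := exLift hA hL g
  have rep : ∀ x : ℝ, (((AddCircle.equivIco 1 0 (x : UnitAddCircle) : ℝ))) = Int.fract x := fun x => by
    simp
  refine ⟨F.1, hA ▸ hL ▸ (rowLit C F.1).2 F.2, hF,
    (Finset.univ.biUnion fun i => ((fi g).subset (sb g i)).toFinset).image
      fun z => (AddCircle.equivIco 1 0 z : ℝ), ?_, fun x => ⟨fun b => ?_, fun _ => ?_⟩⟩
  · refine Finset.card_image_le.trans (Finset.card_biUnion_le.trans (Finset.sum_le_sum fun i _ => ?_))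
    rw [← ncard_eq_toFinset_card _ ((fi g).subset (sb g i))]
    exact (hK i g hg).2
  · have c : ex (jp g x) = 0 := funext fun i => by
      by_contra d
      exact b (Finset.mem_image.2 ⟨x, Finset.mem_biUnion.2
        ⟨i, Finset.mem_univ _, (Finite.mem_toFinset _).2 d⟩, rep x⟩)
    have d := x1 _ (j1 g x)
    rw [c] at d
    have e := j2 g _ F hF x rfl
    rwa [d, show ∏ i, (n i : ℝ) ^ (0 : Fin k → ℤ) i = 1 by simp] at e
  · exact ⟨jp g x, Finset.mem_image.2 ⟨ex (jp g x), Fintype.mem_piFinset.2 fun i =>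
      Finset.mem_Icc.2 (abs_le.1 ((hK i g hg).1 x)), (x1 _ (j1 g x)).symm⟩, j2 g _ F hF x rfl⟩

theorem direct (hk : 2 ≤ k) (hn : ∀ i, 1 < n i) (hi : LinearIndependent ℤ fun i => Real.log (n i))
    (hA : (C.A : Set ℝ) = ring n) (hL : (C.L : Set ℝ) = slopes n) {E : Set (TS n)} {N : ℕ}
    {J : Finset ℝ} (hE : ∀ g ∈ E, ∃ F : ℝ ≃o ℝ,
      IsPL (ring n) (slopes n) F ∧ IsLift g F ∧ Jumps N J F) : RelFW (TS n) E := by
  intro X ρ M hM
  let p : C.G →* Equiv.Perm UnitAddCircle := circ.toHomPerm.comp (Subgroup.inclusion inf_le_right)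
  have hp : ∀ F : C.G, IsLift (p F) F.1 := fun F => circ_lift _
  have hm : ∀ F : C.G, p F ∈ TS n := fun F =>
    Subgroup.subset_closure ⟨F, by rw [← hA, ← hL]; exact (rowLit C F).2 F.2, hp F⟩
  let _ : MulAction C.G X := MulAction.compHom X (ρ.comp (p.codRestrict _ hm))
  have hf : ∀ g : C.G, (Sd M g).Finite := fun g => (sd_finite M g).1 (hM (p.codRestrict _ hm g))
  have h1 : ∀ y : X, rot C 1 C.A.one_mem • y = y := fun y => by
    have e : p.codRestrict _ hm (rot C 1 C.A.one_mem) = 1 := Subtype.ext (lift_uniq (hp _) fun x => by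
      rw [rot_app]
      exact Main.coe_eq.2 ⟨-1, by push_cast; ring⟩)
    show ρ (p.codRestrict _ hm _) y = y
    rw [e, map_one]; rfl
  obtain ⟨c, hc⟩ := bound hf hn hA hL h1 (rotB hf h1 hk hn hi hA hL) N J
  refine ⟨c, fun g hg => ?_⟩
  obtain ⟨F, a, b, d⟩ := hE g hg
  rw [← hA, ← hL] at a
  have e := hc ⟨F, (rowLit C F).1 a⟩ d
  rw [nb, inter_univ, ← sd_ncard] at e
  rwa [show g = p.codRestrict _ hm ⟨F, (rowLit C F).1 a⟩ from Subtype.ext (lift_uniq b (hp _))]

end Pool.Agent.MP_3aea93_al.H72
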