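import Pool.Agent.MP_3aea93_al.H75.Frag

/-! The compactly supported maps of the line lie in a finitely generated group. -/

set_option autoImplicit false

namespace Pool.Agent.MP_3aea93_al.H72

open Set Filter Topology H75

/-- identity, then slope `l` on `[a, b]`, then a translation -/
structure Sh (v : ℝ ≃o ℝ) (a b l : ℝ) : Prop where
  lo : ∀ y, y ≤ a → v y = y
  mid : ∀ y, a ≤ y → y ≤ b → v y = a + l * (y - a)
  hi : ∀ y, b ≤ y → v y = y + (l - 1) * (b - a)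

theorem Sh.uniq {v w : ℝ ≃o ℝ} {a b l : ℝ} (h : Sh v a b l) (h' : Sh w a b l) : v = w := by
  refine OrderIso.ext (funext fun y => ?_)
  rcases le_total y a with c | c
  · rw [h.lo y c, h'.lo y c]
  rcases le_total y b with d | d
  · rw [h.mid y c d, h'.mid y c d]
  · rw [h.hi y d, h'.hi y d]

theorem Sh.conj {v d : ℝ ≃o ℝ} {a b l s t : ℝ} (h : Sh v a b l)
    (hd : ∀ y, d y = s * y + t) : Sh (d * v * d⁻¹) (s * a + t) (s * b + t) l := by
  have e : ∀ y, (d * v * d⁻¹) (d y) = d (v y) := fun y => by rw [mul_app, mul_app, inv_apply]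
  refine ⟨fun y c => ?_, fun y c f => ?_, fun y c => ?_⟩ <;> obtain ⟨x, rfl⟩ := d.surjective y
  · rw [← hd, d.le_iff_le] at c
    rw [e, h.lo x c]
  · rw [← hd, d.le_iff_le] at c f
    rw [e, h.mid x c f, hd, hd]; ring
  · rw [← hd, d.le_iff_le] at c
    rw [e, h.hi x c, hd, hd]; ring

/-- such a map lies in `K` -/
def V (K : Subgroup (ℝ ≃o ℝ)) (a b l : ℝ) : Prop := ∃ v ∈ K, Sh v a b l

variable {K : Subgroup (ℝ ≃o ℝ)}

theorem V_zero (a l : ℝ) : V K a a l :=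
  ⟨1, K.one_mem, fun _ _ => rfl, fun y c d => by rw [le_antisymm d c, one_app]; ring,
    fun y _ => by rw [one_app]; ring⟩

theorem V_one (a b : ℝ) : V K a b 1 :=
  ⟨1, K.one_mem, fun _ _ => rfl, fun y _ _ => by rw [one_app]; ring,
    fun y _ => by rw [one_app]; ring⟩

theorem V_add {a b c l : ℝ} (hl : 0 < l) (h1 : a ≤ b) (h2 : b ≤ c) (h : V K a b l)
    (h' : V K (a + l * (b - a)) (a + l * (b - a) + (c - b)) l) : V K a c l := by
  obtain ⟨v, hv, s⟩ := h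
  obtain ⟨w, hw, s'⟩ := h'
  have p : 0 ≤ l * (b - a) := mul_nonneg hl.le (sub_nonneg.2 h1)
  refine ⟨w * v, K.mul_mem hw hv, fun y e => ?_, fun y e f => ?_, fun y e => ?_⟩
  · rw [mul_app, s.lo y e, s'.lo y (by linarith)]
  · rcases le_total y b with g | g
    · rw [mul_app, s.mid y e g, s'.lo _ (by nlinarith)]
    · rw [mul_app, s.hi y g, s'.mid _ (by linarith) (by linarith)]; ring
  · rw [mul_app, s.hi y (h2.trans e), s'.hi _ (by linarith)]; ring

theorem V_mul {a b l m : ℝ} (hl : 0 < l) (h : V K a b l) (h' : V K a (a + l * (b - a)) m) :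
    V K a b (m * l) := by
  obtain ⟨v, hv, s⟩ := h
  obtain ⟨w, hw, s'⟩ := h'
  refine ⟨w * v, K.mul_mem hw hv, fun y e => ?_, fun y e f => ?_, fun y e => ?_⟩
  · rw [mul_app, s.lo y e, s'.lo y e]
  · rw [mul_app, s.mid y e f, s'.mid _ (by nlinarith) (by nlinarith)]; ring
  · rw [mul_app, s.hi y e, s'.hi _ (by linarith)]; ring

theorem V_inv {a b l : ℝ} (hl : 0 < l) (h : V K a (a + l⁻¹ * (b - a)) l) : V K a b l⁻¹ := by
  obtain ⟨v, hv, s⟩ := h
  have p : 0 < l⁻¹ := inv_pos.2 hl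
  refine ⟨v⁻¹, K.inv_mem hv, fun y e => inv_eq_of (s.lo y e), fun y e f => inv_eq_of ?_,
    fun y e => inv_eq_of ?_⟩
  · rw [s.mid _ (by nlinarith) (by nlinarith)]; field_simp; ring
  · rw [s.hi _ (by linarith)]; field_simp; ring

/-- all integer intervals -/
def VZ (K : Subgroup (ℝ ≃o ℝ)) (l : ℕ) : Prop := 0 < l ∧ ∀ (a : ℤ) (r : ℕ), V K a (a + r) l

theorem VZ_gen (h1 : tr 1 ∈ K) {l : ℕ} (hl : 0 < l) (h : V K 0 1 l) : VZ K l := by
  have one : ∀ a : ℤ, V K a (a + 1) l := fun a => by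
    obtain ⟨v, hv, s⟩ := h
    have t := Frag.tr_int h1 a
    have := s.conj (d := tr a) (s := 1) (t := a) fun y => by rw [tr_app, one_mul]
    rw [mul_zero, zero_add, mul_one, add_comm] at this
    exact ⟨_, K.mul_mem (K.mul_mem t hv) (K.inv_mem t), this⟩
  refine ⟨hl, fun a r => ?_⟩
  induction r with
  | zero => simpa using V_zero (K := K) a l
  | succ r ih =>
    refine V_add (by exact_mod_cast hl) (by simp) (by push_cast; linarith) ih ?_
    have := one (a + l * r)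
    push_cast at this ⊢
    convert this using 1 <;> ring

theorem VZ_one : VZ K 1 := ⟨one_pos, fun a r => by simpa using V_one (K := K) a (a + r)⟩

theorem VZ_mul {l m : ℕ} (h : VZ K l) (h' : VZ K m) : VZ K (l * m) := by
  refine ⟨mul_pos h.1 h'.1, fun a r => ?_⟩
  have := V_mul (by exact_mod_cast h'.1) (h'.2 a r) (m := l) (by
    have := h.2 a (m * r)
    push_cast at this
    convert this using 1; ring)
  push_cast
  exact this

variable {C : Ctx}

theorem trunc (hV : ∀ l ∈ C.L, ∀ a ∈ C.A, ∀ b ∈ C.A, a ≤ b → V K a b l) : C.Pc ≤ K := by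
  intro g hg
  obtain ⟨R, hR⟩ := mem_Germ_ends.1 hg.2
  let T : ℝ → Prop := fun w => ∃ b ∈ K, (∀ y, y ≤ w → b y = g y) ∧ ∀ y, w ≤ y → b y = y + (g w - w)
  have step : ∀ x ∈ C.A, ∀ w ∈ C.A, x ≤ w → ∀ l ∈ C.L, ∀ c : ℝ,
      (∀ y, x ≤ y → y ≤ w → g y = l * y + c) → T x → T w := by
    rintro x hx w hw h l hl c e ⟨b, hb, b1, b2⟩
    have hgx := (Ctx.mem_A hg.1 x).2 hx
    obtain ⟨v, hv, s⟩ := hV l hl (g x) hgx (g x + (w - x)) (C.A.add_mem hgx (C.A.sub_mem hw hx))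
      (by linarith)
    refine ⟨v * b, K.mul_mem hv hb, fun y hy => ?_, fun y hy => ?_⟩
    · rcases le_total y x with d | d
      · rw [mul_app, b1 y d, s.lo _ (g.monotone d)]
      · rw [mul_app, b2 y d, s.mid _ (by linarith) (by linarith), e y d hy, e x le_rfl h]; ring
    · rw [mul_app, b2 y (h.trans hy), s.hi _ (by linarith), e w h le_rfl, e x le_rfl h]; ring
  have all : ∀ w ∈ C.A, T w := by
    by_contra hn
    push Not at hn
    let Z : Set ℝ := {w | w ∈ C.A ∧ ¬T w}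
    have hb : ∀ w ∈ Z, -R ≤ w := fun w hw => by
      by_contra a
      refine hw.2 ⟨1, K.one_mem, fun y hy => (hR y (Or.inl (by linarith))).symm, fun y _ => ?_⟩
      rw [hR w (Or.inl (by linarith)), one_app]; ring
    obtain ⟨s, hs⟩ : ∃ s, IsGLB Z s := ⟨_, isGLB_csInf hn ⟨-R, hb⟩⟩
    have lt : ∀ w ∈ C.A, w < s → T w := fun w hw a => by
      by_contra b
      exact (hs.1 ⟨hw, b⟩).not_gt a
    have fin : ∀ x ∈ C.A, x ≤ s → T x → ∀ s', s < s' → ∀ l ∈ C.L, ∀ c : ℝ,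
        (∀ y, x ≤ y → y ≤ s' → g y = l * y + c) → False := by
      intro x hx a b s' d l hl c e
      refine (hs.2 fun w hw => ?_ : s' ≤ s).not_gt d
      by_contra f
      push Not at f
      exact hw.2 (step x hx w hw.1 (a.trans (hs.1 hw)) l hl c (fun y p q => e y p (q.trans f.le)) b)
    by_cases hA : s ∈ C.A
    · obtain ⟨l, hl, c, -, e⟩ := (hg.1 s).2.1
      obtain ⟨v, hv, e'⟩ := mem_nhdsLE_iff_exists_Icc_subset.1 e
      obtain ⟨x, hx, x1, x2⟩ := C.dense hv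
      obtain ⟨l', hl', c', -, f⟩ := (hg.1 s).1
      obtain ⟨w, hw, f'⟩ := mem_nhdsGE_iff_exists_Icc_subset.1 f
      exact fin s hA le_rfl (step x hx s hA x2.le l hl c (fun y p q => e' ⟨x1.le.trans p, q⟩)
        (lt x hx x2)) w hw l' hl' c' fun y p q => f' ⟨p, q⟩
    · obtain ⟨l, hl, c, -, e⟩ := (hg.1 s).2.2 hA
      obtain ⟨v, w, -, hn, e'⟩ := exists_Icc_mem_subset_of_mem_nhds e
      obtain ⟨h2, h3⟩ := Icc_mem_nhds_iff.1 hn
      obtain ⟨x, hx, x1, x2⟩ := C.dense h2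
      exact fin x hx x2.le (lt x hx x2) w h3 l hl c fun y p q => e' ⟨x1.le.trans p, q⟩
  obtain ⟨w, hw, w1, -⟩ := C.dense (lt_add_one R)
  obtain ⟨b, hb, b1, b2⟩ := all w hw
  rw [show g = b from OrderIso.ext (funext fun y => ?_)]
  · exact hb
  rcases le_total y w with d | d
  · exact (b1 y d).symm
  · rw [b2 y d, hR w (Or.inr w1.le), hR y (Or.inr (w1.le.trans d))]; ring

variable {k : ℕ} {n : Fin k → ℕ}

theorem den (hn : ∀ i, 1 < n i) (hA : (C.A : Set ℝ) = ring n) {a : ℝ} (ha : a ∈ C.A) :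
    ∃ (j : ℕ) (z : ℤ), ((∏ i, n i : ℕ) : ℝ) ^ j * a = z := by
  have h1 : a ∈ ring n := hA ▸ ha
  obtain ⟨j, z, rfl⟩ := h1
  obtain ⟨d, hd⟩ : Finset.univ.lcm n ∣ ∏ i, n i :=
    Finset.lcm_dvd fun i hi => Finset.dvd_prod_of_mem n hi
  have h2 : ((∏ i, n i : ℕ) : ℝ) ≠ 0 :=
    Nat.cast_ne_zero.2 (Finset.prod_pos fun i _ => one_pos.trans (hn i)).ne'
  rw [hd, Nat.cast_mul] at h2
  refine ⟨j, d ^ j * z, ?_⟩
  have h3 := left_ne_zero_of_mul h2
  rw [hd]
  push_cast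
  rw [mul_pow]
  field_simp

theorem gen_mem (hL : (C.L : Set ℝ) = slopes n) (i : Fin k) : (n i : ℝ) ∈ C.L := by
  classical
  show (n i : ℝ) ∈ (C.L : Set ℝ)
  rw [hL]
  refine ⟨Pi.single i 1, ?_⟩
  rw [Finset.prod_eq_single i (fun j _ h => by simp [h]) (by simp)]
  simp

theorem L_ind (hL : (C.L : Set ℝ) = slopes n) {Φ : ℝ → Prop} (h0 : Φ 1) (h1 : ∀ i, Φ (n i))
    (h2 : ∀ a b, Φ a → Φ b → Φ (a * b)) (h3 : ∀ a, Φ a → Φ a⁻¹) : ∀ l ∈ C.L, Φ l := by
  intro l hl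
  have h4 : l ∈ slopes n := hL ▸ hl
  obtain ⟨e, rfl⟩ := h4
  have h5 : ∀ i (j : ℕ), Φ ((n i : ℝ) ^ j) := fun i j => by
    induction j with
    | zero => simpa using h0
    | succ j ih => rw [pow_succ]; exact h2 _ _ ih (h1 i)
  refine Finset.prod_induction _ Φ h2 h0 fun i _ => ?_
  rcases Int.eq_nat_or_neg (e i) with ⟨j, h | h⟩
  · rw [h, zpow_natCast]; exact h5 i j
  · rw [h, zpow_neg, zpow_natCast]; exact h3 _ (h5 i j)

theorem line (hn : ∀ i, 1 < n i) (hA : (C.A : Set ℝ) = ring n) (hL : (C.L : Set ℝ) = slopes n)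
    {S : Subgroup (ℝ ≃o ℝ)} (h1 : tr 1 ∈ S) (h2 : ∀ i, V S 0 1 (n i)) : C.Pc ≤ S := by
  choose x hx sx using h2
  let K := Subgroup.closure (insert (tr 1) (range x))
  have hK : K ≤ S := (Subgroup.closure_le _).2 (insert_subset h1 (range_subset_iff.2 hx))
  have t1 : tr 1 ∈ K := Subgroup.subset_closure (mem_insert _ _)
  have z1 : ∀ i, VZ K (n i) := fun i => VZ_gen t1 (one_pos.trans (hn i))
    ⟨x i, Subgroup.subset_closure (mem_insert_of_mem _ ⟨i, rfl⟩), sx i⟩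
  obtain ⟨M, hM⟩ : ∃ M : ℕ, M = ∏ i, n i := ⟨_, rfl⟩
  have z2 : VZ K M := hM ▸ Finset.prod_induction _ (VZ K) (fun _ _ => VZ_mul) VZ_one fun i _ => z1 i
  have z3 : ∀ j : ℕ, VZ K (M ^ j) := fun j => by
    induction j with
    | zero => simpa using VZ_one
    | succ j ih => rw [pow_succ]; exact VZ_mul ih z2
  have M0 : (0 : ℝ) < M := by exact_mod_cast z2.1
  let D : ℝ ≃o ℝ := OrderIso.mulLeft₀ (M : ℝ) M0
  have hD : ∀ (j : ℕ) y, (D ^ j) y = (M : ℝ) ^ j * y + 0 := fun j => by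
    induction j with
    | zero => intro y; simp
    | succ j ih =>
      intro y
      rw [pow_succ, mul_app, ih, pow_succ, mul_assoc]; rfl
  have c1 : ∀ g ∈ K, D * g * D⁻¹ ∈ K := by
    intro g hg
    induction hg using Subgroup.closure_induction with
    | mem s hs =>
      rcases hs with rfl | ⟨i, rfl⟩
      · rw [show D * tr 1 * D⁻¹ = tr ((M : ℤ) : ℝ) from OrderIso.ext (funext fun y => ?_)]
        · exact Frag.tr_int t1 _
        obtain ⟨w, rfl⟩ := D.surjective y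
        rw [mul_app, mul_app, inv_apply, tr_app, tr_app]
        show (M : ℝ) * (w + 1) = M * w + ((M : ℤ) : ℝ)
        push_cast; ring
      · obtain ⟨v, hv, s⟩ := (z1 i).2 0 M
        have s' := (sx i).conj (d := D) (s := M) (t := 0) fun y => (add_zero _).symm
        simp only [mul_zero, add_zero, mul_one, Int.cast_zero, zero_add] at s s'
        rw [s'.uniq s]; exact hv
    | one => simp
    | mul a b _ _ p q =>
      rw [show D * (a * b) * D⁻¹ = D * a * D⁻¹ * (D * b * D⁻¹) by group]; exact K.mul_mem p q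
    | inv a _ p => rw [show D * a⁻¹ * D⁻¹ = (D * a * D⁻¹)⁻¹ by group]; exact K.inv_mem p
  have c2 : ∀ (i j : ℕ) g, D ^ j * g * (D ^ j)⁻¹ ∈ K → D ^ (i + j) * g * (D ^ (i + j))⁻¹ ∈ K := by
    intro i j g hg
    induction i with
    | zero => simpa using hg
    | succ i ih =>
      rw [show D ^ (i + 1 + j) * g * (D ^ (i + 1 + j))⁻¹ =
        D * (D ^ (i + j) * g * (D ^ (i + j))⁻¹) * D⁻¹ by group]
      exact c1 _ ih
  let W : Subgroup (ℝ ≃o ℝ) :=
    { carrier := {g | ∃ j : ℕ, D ^ j * g * (D ^ j)⁻¹ ∈ K}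
      one_mem' := ⟨0, by simp⟩
      mul_mem' := fun {a b} ⟨i, p⟩ ⟨j, q⟩ => ⟨i + j, by
        rw [show D ^ (i + j) * (a * b) * (D ^ (i + j))⁻¹ = D ^ (j + i) * a * (D ^ (j + i))⁻¹ *
          (D ^ (i + j) * b * (D ^ (i + j))⁻¹) by group]
        exact K.mul_mem (c2 j i a p) (c2 i j b q)⟩
      inv_mem' := fun {a} ⟨i, p⟩ => ⟨i, by
        rw [show D ^ i * a⁻¹ * (D ^ i)⁻¹ = (D ^ i * a * (D ^ i)⁻¹)⁻¹ by group]
        exact K.inv_mem p⟩ }
  have w1 : C.Pc ≤ W := by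
    refine trunc fun l hl => (L_ind hL
      (Φ := fun l => l ∈ C.L ∧ ∀ a ∈ C.A, ∀ b ∈ C.A, a ≤ b → V W a b l)
      ⟨C.L.one_mem, fun a _ b _ _ => V_one a b⟩ (fun i => ⟨gen_mem hL i, fun a ha b hb h => ?_⟩)
      (fun l m p q => ⟨C.L.mul_mem p.1 q.1, fun a ha b hb h => ?_⟩)
      (fun l p => ⟨C.inv l p.1, fun a ha b hb h => ?_⟩) l hl).2
    · obtain ⟨j, z, e⟩ := den hn hA ha
      obtain ⟨j', z', e'⟩ := den hn hA (C.A.sub_mem hb ha)
      rw [← hM] at e e'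
      have p0 : 0 ≤ z' := by
        have : (0 : ℝ) ≤ z' := e' ▸ mul_nonneg (pow_pos M0 _).le (sub_nonneg.2 h)
        exact_mod_cast this
      obtain ⟨r, rfl⟩ := Int.eq_ofNat_of_zero_le p0
      obtain ⟨v, hv, s⟩ := (z1 i).2 (M ^ j' * z) (M ^ j * r)
      have p1 : (0 : ℝ) < M ^ (j + j') := pow_pos M0 _
      have s' := s.conj (d := (D ^ (j + j'))⁻¹) (s := ((M : ℝ) ^ (j + j'))⁻¹) (t := 0)
        fun y => inv_eq_of (by rw [hD]; field_simp; ring)
      refine ⟨(D ^ (j + j'))⁻¹ * v * (D ^ (j + j'))⁻¹⁻¹, ⟨j + j', by simpa [mul_assoc] using hv⟩, ?_⟩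
      push_cast at s' e'
      rw [← e, ← e'] at s'
      have q1 : ((M : ℝ) ^ (j + j'))⁻¹ * (M ^ j' * (M ^ j * a)) + 0 = a := by field_simp; ring
      have q2 : ((M : ℝ) ^ (j + j'))⁻¹ * (M ^ j' * (M ^ j * a) + M ^ j * (M ^ j' * (b - a))) + 0 = b := by
        field_simp; ring
      rwa [q1, q2] at s'
    · have p0 := C.pos m q.1
      exact V_mul p0 (q.2 a ha b hb h) (p.2 a ha _
        (C.A.add_mem ha (C.A.mul_mem (C.sub m q.1) (C.A.sub_mem hb ha))) (by nlinarith))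
    · have p0 := C.pos l p.1
      have p1 := inv_pos.2 p0
      exact V_inv p0 (p.2 a ha _
        (C.A.add_mem ha (C.A.mul_mem (C.sub _ (C.inv l p.1)) (C.A.sub_mem hb ha))) (by nlinarith))
  intro g hg
  obtain ⟨j, hj⟩ := w1 hg
  obtain ⟨R₀, hR⟩ := mem_Germ_ends.1 hg.2
  obtain ⟨R, hR'⟩ := exists_nat_ge R₀
  obtain ⟨v, hv, s⟩ := (z3 j).2 (-R) (2 * R)
  have t2 := Frag.tr_int t1 ((1 - M ^ j) * R)
  have e : Commute g ((D ^ j)⁻¹ * (tr (((1 - M ^ j) * R : ℤ) : ℝ) * v)) := by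
    refine Frag.commute_of_fix fun y => ?_
    by_cases a : y ≤ -R₀ ∨ R₀ ≤ y
    · exact Or.inl (hR y a)
    · push Not at a
      have b : (D ^ j) y = (tr (((1 - M ^ j) * R : ℤ) : ℝ) * v) y := by
        rw [hD, mul_app, s.mid y (by push_cast; linarith) (by push_cast; linarith), tr_app]
        push_cast; ring
      exact Or.inr (inv_eq_of b)
  have p := K.mul_mem t2 hv
  generalize tr (((1 - M ^ j) * R : ℤ) : ℝ) * v = q at e p
  have e2 : g = q⁻¹ * (D ^ j * g * (D ^ j)⁻¹) * q := by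
    rw [mul_assoc q⁻¹, mul_assoc (D ^ j * g), mul_assoc (D ^ j), e.eq]; group
  rw [e2]
  exact hK (K.mul_mem (K.mul_mem (K.inv_mem p) hj) p)

end Pool.Agent.MP_3aea93_al.H72
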