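import Pool.Agent.MP_3aea93_al.H72.Arc
import Pool.Agent.MP_3aea93_al.H72.Line

/-! The elements supported in an arc lie in a finitely generated group supported in a larger arc. -/

set_option autoImplicit false

namespace Pool.Agent.MP_3aea93_al.H72

open Set Filter Topology H75

variable {C : Ctx}

/-- the affine map -/
noncomputable def af (l : ℝ) (hl : 0 < l) (c : ℝ) : ℝ ≃o ℝ := tr c * OrderIso.mulLeft₀ l hl

theorem af_app (l : ℝ) (hl : 0 < l) (c x : ℝ) : af l hl c x = l * x + c := rfl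

theorem af_mem {l c : ℝ} (hl : l ∈ C.L) (hc : c ∈ C.A) : af l (C.pos l hl) c ∈ C.P :=
  Ctx.mem_P_of_aff hl hc (af_app _ _ _)

/-- a chart from the line onto an arc that carries `x + 1` to `c` -/
noncomputable def ch (c : C.G) (f : ℝ ≃o ℝ) (x : ℝ) : ℝ := (c ^ ⌊x⌋).1 (f (Int.fract x))

section Chart

variable {c : C.G} {f : ℝ ≃o ℝ}

theorem ch_add (x : ℝ) (j : ℤ) : ch c f (x + j) = (c ^ j).1 (ch c f x) := by
  unfold ch
  rw [Int.floor_add_intCast, Int.fract_add_intCast, add_comm, zpow_add]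
  rfl

theorem ch_int (j : ℤ) : ch c f j = (c ^ j).1 (f 0) := by
  unfold ch
  rw [Int.floor_intCast, Int.fract_intCast]

theorem ch_eq (h : f 1 = c.1 (f 0)) (j : ℤ) {x : ℝ} (h1 : j ≤ x) (h2 : x ≤ j + 1) :
    ch c f x = ((c ^ j).1 * f * (tr j)⁻¹) x := by
  rw [mul_app, mul_app, tr_inv_app]
  rcases h2.lt_or_eq with a | a
  · have e : ⌊x⌋ = j := Int.floor_eq_iff.2 ⟨h1, a⟩
    unfold ch
    rw [Int.fract, e]
  · rw [a, show (j : ℝ) + 1 = ((j + 1 : ℤ) : ℝ) by push_cast; rfl, ch_int, zpow_add_one]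
    push_cast
    rw [add_sub_cancel_left, h]
    rfl

theorem ch_loc (hf : f ∈ C.P) (h : f 1 = c.1 (f 0)) (r : ℕ) (i : ℤ) :
    ∃ g ∈ C.P, ∀ x : ℝ, i ≤ x → x ≤ i + r → ch c f x = g x := by
  have pc : ∀ j : ℤ, (c ^ j).1 * f * (tr j)⁻¹ ∈ C.P := fun j =>
    C.P.mul_mem (C.P.mul_mem (c ^ j).2.1 hf) (C.P.inv_mem (Ctx.tr_mem_P (intCast_mem _ _)))
  induction r with
  | zero => exact ⟨_, pc i, fun x a b => ch_eq h i a (by push_cast at b; linarith)⟩
  | succ r ih =>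
    obtain ⟨g, hg, e⟩ := ih
    have r0 : (0 : ℝ) ≤ r := Nat.cast_nonneg r
    have e1 : ((i + r : ℤ) : ℝ) = i + r := by push_cast; rfl
    obtain ⟨g', hg', a, b⟩ := rowGlue C g _ ((i + r : ℤ) : ℝ) hg (pc (i + r)) (intCast_mem _ _)
      ((e _ (by linarith) e1.le).symm.trans (ch_eq h _ le_rfl (by linarith)))
    refine ⟨g', hg', fun x p q => ?_⟩
    push_cast at q
    rcases le_total x ((i + r : ℤ) : ℝ) with d | d
    · rw [a x d, e x p (by linarith)]
    · rw [b x d, ch_eq h _ d (by linarith)]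

theorem ch_loc' (hf : f ∈ C.P) (h : f 1 = c.1 (f 0)) (R : ℕ) :
    ∃ g ∈ C.P, ∀ x : ℝ, -R ≤ x → x ≤ R → ch c f x = g x := by
  obtain ⟨g, hg, e⟩ := ch_loc hf h (2 * R) (-R)
  exact ⟨g, hg, fun x a b => e x (by push_cast; exact a) (by push_cast; linarith)⟩

theorem ch_mono (hf : f ∈ C.P) (h : f 1 = c.1 (f 0)) : Monotone (ch c f) := by
  intro x y hxy
  obtain ⟨R, hR⟩ := exists_nat_ge (max (-x) y)
  obtain ⟨a, b⟩ := max_le_iff.1 hR
  obtain ⟨g, -, e⟩ := ch_loc' hf h R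
  rw [e x (by linarith) (by linarith), e y (by linarith) b]
  exact g.monotone hxy

end Chart

theorem exists_c {α e : ℝ} {m : ℕ} (hα : α ∈ C.A) (he : e ∈ C.A) (e0 : 0 < e) (hm : 2 ≤ m)
    (hL : (m : ℝ) ∈ C.L) {β : ℝ} (hβ : β = α + (m + 1) * e) (h1 : β ≤ α + 1) :
    ∃ c : C.G, (∀ y, β ≤ y → y ≤ α + 1 → c.1 y = y) ∧ α + e < c.1 (α + e) ∧
      (∀ j : ℕ, (c ^ j)⁻¹.1 (α + e) = α + e * ((m : ℝ)⁻¹) ^ j) ∧
      ∀ j : ℕ, (c ^ j).1 (α + e) = β - m * e * ((m : ℝ)⁻¹) ^ j := by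
  have m2 : (2 : ℝ) ≤ m := by exact_mod_cast hm
  have m0 : (0 : ℝ) < m := by linarith
  have mA := C.sub _ hL
  have iL := C.inv _ hL
  have hβA : β ∈ C.A := hβ ▸ C.A.add_mem hα (C.A.mul_mem (C.A.add_mem mA C.A.one_mem) he)
  obtain ⟨g, hg, g1, g2⟩ := rowGlue C _ _ (α + e)
    (af_mem hL (C.A.sub_mem hα (C.A.mul_mem mA hα)))
    (af_mem iL (C.A.sub_mem hβA (C.A.mul_mem (C.sub _ iL) hβA))) (C.A.add_mem hα he)
    (by rw [af_app, af_app, hβ]; field_simp; ring)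
  have me : 0 < m * e := mul_pos m0 e0
  have b1 : α + e ≤ β := by rw [hβ]; linarith
  obtain ⟨g', hg', g3, g4⟩ := rowGlue C g 1 β hg C.P.one_mem hβA
    (by rw [g2 β b1, af_app, one_app]; ring)
  obtain ⟨c, hc, c1⟩ := rowPer C g' α hg' hα (by
    rw [g4 _ h1, g3 α (by linarith), g1 α (by linarith), af_app, one_app]; ring)
  have lo : ∀ y, α ≤ y → y ≤ α + e → c y = α + m * (y - α) := fun y a b => by
    rw [c1 y a (by linarith), g3 y (by linarith), g1 y b, af_app]; ring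
  have hi : ∀ y, α + e ≤ y → y ≤ β → c y = β - (m : ℝ)⁻¹ * (β - y) := fun y a b => by
    rw [c1 y (by linarith) (by linarith), g3 y b, g2 y a, af_app]; ring
  have i0 : (0 : ℝ) < (m : ℝ)⁻¹ := inv_pos.2 m0
  have i1 : (m : ℝ)⁻¹ ≤ 1 := inv_le_one_of_one_le₀ (by linarith)
  have p0 : ∀ j : ℕ, 0 < ((m : ℝ)⁻¹) ^ j := fun j => pow_pos i0 j
  have p1 : ∀ j : ℕ, ((m : ℝ)⁻¹) ^ j ≤ 1 := fun j => pow_le_one₀ i0.le i1
  refine ⟨⟨c, hc⟩, fun y a b => ?_, ?_, fun j => ?_, fun j => ?_⟩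
  · show c y = y
    rw [c1 y (by linarith) b, g4 y a, one_app]
  · show α + e < c (α + e)
    rw [lo _ (by linarith) le_rfl]; nlinarith
  · induction j with
    | zero => simp
    | succ j ih =>
      rw [pow_succ, mul_inv_rev]
      show c⁻¹ (((⟨c, hc⟩ : C.G) ^ j)⁻¹.1 (α + e)) = _
      rw [ih]
      refine inv_eq_of ?_
      rw [lo _ (by nlinarith [p0 (j + 1)]) (by nlinarith [p1 (j + 1)]), pow_succ]
      field_simp; ring
  · induction j with
    | zero => simp [hβ]; ring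
    | succ j ih =>
      rw [pow_succ']
      show c (((⟨c, hc⟩ : C.G) ^ j).1 (α + e)) = _
      rw [ih, hi _ (by rw [hβ]; nlinarith [p1 j]) (by nlinarith [p0 j]), pow_succ]
      ring

variable {k : ℕ} {n : Fin k → ℕ}

theorem fg (hn : ∀ i, 1 < n i) (hA : (C.A : Set ℝ) = ring n) (hL : (C.L : Set ℝ) = slopes n)
    {a a' b' b : ℝ} (h1 : a < a') (h2 : a' < b') (h3 : b' < b) (h4 : b ≤ a + 1) :
    ∃ T : Set C.G, T.Finite ∧ Subgroup.closure T ≤ Nn C b (a + 1) ∧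
      Nn C b' (a' + 1) ≤ Subgroup.closure T := by
  obtain ⟨m, hm, mL⟩ := C.exists_nat
  have m2 : (2 : ℝ) ≤ m := by exact_mod_cast hm
  obtain ⟨α, hα, a1, a2⟩ := C.dense h1
  obtain ⟨e, he, e1, e2⟩ := C.dense (div_lt_div_of_pos_right (by linarith : b' - α < b - α)
    (by linarith : (0 : ℝ) < m + 1))
  have e0 : 0 < e := (div_pos (by linarith) (by linarith)).trans e1
  rw [div_lt_iff₀ (by linarith)] at e1
  rw [lt_div_iff₀ (by linarith)] at e2
  obtain ⟨β, hβ⟩ : ∃ β, β = α + (m + 1) * e := ⟨_, rfl⟩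
  have b1 : b' < β := by rw [hβ]; linarith
  have b2 : β < b := by rw [hβ]; linarith
  have hβA : β ∈ C.A :=
    hβ ▸ C.A.add_mem hα (C.A.mul_mem (C.A.add_mem (C.sub _ mL) C.A.one_mem) he)
  obtain ⟨c, c1, c2, c3, c4⟩ := exists_c hα he e0 hm mL hβ (by linarith)
  have hx := C.A.add_mem hα he
  obtain ⟨f₀, hf₀, f1, f2⟩ := hE C (α + e) (α + e + 1) 1 (c.1 (α + e) - (α + e + 1)) hx
    (C.A.add_mem hx C.A.one_mem) C.L.one_mem
    (C.A.sub_mem ((Ctx.mem_A c.2.1 _).2 hx) (C.A.add_mem hx C.A.one_mem)) (by linarith) (by linarith)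
  obtain ⟨f, hf, f0, f1⟩ : ∃ f ∈ C.P, f 0 = α + e ∧ f 1 = c.1 (f 0) := by
    have e3 : (f₀ * tr (α + e)) 0 = α + e := by rw [mul_app, tr_app, zero_add, f1 _ le_rfl]
    refine ⟨f₀ * tr (α + e), C.P.mul_mem hf₀ (Ctx.tr_mem_P hx), e3, ?_⟩
    rw [e3, mul_app, tr_app, f2 _ (by linarith)]; ring
  have mono := ch_mono hf f1
  have cz : ∀ (j : ℤ) y, β ≤ y → y ≤ α + 1 → (c ^ j).1 y = y := fun j y p q =>
    (Fix {y}).zpow_mem (x := c.1) (fun x hx => by rw [mem_singleton_iff.1 hx]; exact c1 y p q) j y rfl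
  have rng : ∀ x, α < ch c f x ∧ ch c f x < β := fun x => by
    have r1 := mono (Int.floor_le x)
    have r2 := mono (Int.le_ceil x)
    rw [ch_int, f0] at r1 r2
    have r3 := (c ^ ⌊x⌋).1.strictMono (by linarith : α < α + e)
    have r4 := (c ^ ⌈x⌉).1.strictMono (by rw [hβ]; nlinarith : α + e < β)
    have r5 := cz ⌊x⌋ (α + 1) (by linarith) le_rfl
    rw [per1] at r5
    rw [cz _ β le_rfl (by linarith)] at r4
    constructor <;> linarith
  have i1 : (m : ℝ)⁻¹ < 1 := inv_lt_one_of_one_lt₀ (by linarith)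
  have i0 : (0 : ℝ) < (m : ℝ)⁻¹ := inv_pos.2 (by linarith)
  have ex : ∀ p q, α < p → q < β → ∃ R : ℕ, ch c f (-R) ≤ p ∧ q ≤ ch c f R := fun p q hp hq => by
    have me : 0 < m * e := mul_pos (by linarith) e0
    obtain ⟨R, hR⟩ := exists_pow_lt_of_lt_one
      (lt_min (div_pos (sub_pos.2 hp) e0) (div_pos (sub_pos.2 hq) me)) i1
    obtain ⟨r1, r2⟩ := lt_min_iff.1 hR
    rw [lt_div_iff₀ e0] at r1
    rw [lt_div_iff₀ me] at r2
    have r3 := ch_int (c := c) (f := f) (-R)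
    have r4 := ch_int (c := c) (f := f) R
    rw [f0, zpow_neg, zpow_natCast, c3] at r3
    rw [f0, zpow_natCast, c4] at r4
    push_cast at r3 r4
    exact ⟨R, by rw [r3]; linarith, by rw [r4]; linarith⟩
  have surj : ∀ y, α < y → y < β → ∃ x, ch c f x = y := fun y p q => by
    obtain ⟨R, r1, r2⟩ := ex y y p q
    obtain ⟨g, -, hg⟩ := ch_loc' hf f1 R
    have r0 : (0 : ℝ) ≤ R := Nat.cast_nonneg R
    rw [hg _ le_rfl (by linarith)] at r1
    rw [hg _ (by linarith) le_rfl] at r2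
    exact ⟨g⁻¹ y, by rw [hg (g⁻¹ y) (g.le_symm_apply.2 r1) (g.symm_apply_le.2 r2), apply_inv]⟩
  let Rel : (ℝ ≃o ℝ) → C.G → Prop := fun g h =>
    (∀ x, h.1 (ch c f x) = ch c f (g x)) ∧ ∀ y, β ≤ y → y ≤ α + 1 → h.1 y = y
  have gen : ∀ i, ∃ h : C.G, (∀ y, β ≤ y → y ≤ α + 1 → h.1 y = y) ∧
      ∃ x, Sh x 0 1 (n i) ∧ Rel x h := by
    intro i
    have nL := gen_mem hL i
    have n1 : (1 : ℝ) < n i := by exact_mod_cast hn i
    obtain ⟨x₀, hx₀, x1, x2⟩ := rowGlue C 1 _ 0 C.P.one_mem (af_mem nL C.A.zero_mem) C.A.zero_mem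
      (by rw [af_app, one_app]; ring)
    obtain ⟨x, hx, x3, x4⟩ := rowGlue C x₀ _ 1 hx₀
      (Ctx.tr_mem_P (C.A.sub_mem (C.sub _ nL) C.A.one_mem)) C.A.one_mem
      (by rw [x2 1 zero_le_one, af_app, tr_app]; ring)
    have s : Sh x 0 1 (n i) := ⟨fun y p => by rw [x3 y (by linarith), x1 y p, one_app],
      fun y p q => by rw [x3 y q, x2 y p, af_app]; ring, fun y p => by rw [x4 y p, tr_app]; ring⟩
    obtain ⟨g, hg, g1⟩ := ch_loc' hf f1 (n i)
    have sh : ∀ y, 1 ≤ y → (c ^ ((n i : ℤ) - 1)).1 (ch c f y) = ch c f (x y) := fun y p => by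
      rw [← ch_add, s.hi y p]; push_cast; congr 1; ring
    have g2 := g1 1 (by linarith) n1.le
    have g3 := g1 0 (by linarith) (by linarith)
    obtain ⟨h₀, hh₀, p1, p2⟩ := rowGlue C (g * x * g⁻¹) (c ^ ((n i : ℤ) - 1)).1 (g 1)
      (C.P.mul_mem (C.P.mul_mem hg hx) (C.P.inv_mem hg)) (c ^ ((n i : ℤ) - 1)).2.1
      ((Ctx.mem_A hg 1).2 C.A.one_mem) (by
        rw [mul_app, mul_app, inv_apply, ← g2, sh 1 le_rfl, s.hi 1 le_rfl,
          g1 _ (by linarith) (by linarith)])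
    have p3 : ∀ y, y ≤ g 0 → h₀ y = y := fun y p => by
      rw [p1 y (p.trans (g.monotone zero_le_one)), mul_app, mul_app,
        s.lo (g⁻¹ y) (g.symm_apply_le.2 p), apply_inv]
    have p4 : ∀ y, β ≤ y → y ≤ α + 1 → h₀ y = y := fun y p q => by
      rw [p2 y (by linarith [(rng 1).2]), cz _ y p q]
    obtain ⟨h, hh, p5⟩ := rowPer C h₀ α hh₀ hα (by
      rw [p4 _ (by linarith) le_rfl, p3 α (by linarith [(rng 0).1])])
    have p6 : ∀ y, β ≤ y → y ≤ α + 1 → h y = y := fun y p q => by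
      rw [p5 y (by linarith) q, p4 y p q]
    refine ⟨⟨h, hh⟩, p6, x, s, fun y => ?_, p6⟩
    show h (ch c f y) = _
    rw [p5 _ (rng y).1.le (by linarith [(rng y).2])]
    rcases le_total y 0 with d | d
    · rw [p3 _ (g3 ▸ mono d), s.lo y d]
    rcases le_total y 1 with d' | d'
    · rw [p1 _ (g2 ▸ mono d'), g1 y (by linarith) (by linarith), mul_app, mul_app, inv_apply,
        s.mid y d d', g1 _ (by nlinarith) (by nlinarith)]
    · rw [p2 _ (g2 ▸ mono d'), sh y d']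
  choose h hh x sx rx using gen
  let T : Set C.G := insert c (range h)
  let S : Subgroup (ℝ ≃o ℝ) :=
    { carrier := {g | ∃ h ∈ Subgroup.closure T, Rel g h}
      one_mem' := ⟨1, Subgroup.one_mem _, fun _ => rfl, fun _ _ _ => rfl⟩
      mul_mem' := fun {g g'} ⟨u, hu, u1, u2⟩ ⟨v, hv, v1, v2⟩ =>
        ⟨u * v, Subgroup.mul_mem _ hu hv, fun y => by
          show u.1 (v.1 _) = _
          rw [v1, u1, mul_app], fun y p q => by
          show u.1 (v.1 _) = _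
          rw [v2 y p q, u2 y p q]⟩
      inv_mem' := fun {g} ⟨u, hu, u1, u2⟩ => ⟨u⁻¹, Subgroup.inv_mem _ hu,
        fun y => inv_eq_of (f := u.1) (by rw [u1, apply_inv]), fun y p q => inv_eq_of (u2 y p q)⟩ }
  have hS : C.Pc ≤ S := line hn hA hL
    ⟨c, Subgroup.subset_closure (mem_insert _ _), fun y => by
      have := ch_add (c := c) (f := f) y 1
      rw [zpow_one, Int.cast_one] at this
      exact this.symm, c1⟩
    fun i => ⟨x i, ⟨h i, Subgroup.subset_closure (mem_insert_of_mem _ ⟨i, rfl⟩), rx i⟩, sx i⟩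
  refine ⟨T, (finite_range h).insert c, (Subgroup.closure_le _).2 ?_, fun u hu => ?_⟩
  · rintro _ (rfl | ⟨i, rfl⟩)
    · exact ⟨β, α + 1, b2, by linarith, c1⟩
    · exact ⟨β, α + 1, b2, by linarith, hh i⟩
  have u1 : ∀ y, b' ≤ y → y ≤ a' + 1 → u.1 y = y := fun y p q => Nn_fix hu p q
  have u2 : ∀ y, α ≤ y → y ≤ a' → u.1 y = y := fun y p q => by
    have := u1 (y + 1) (by linarith) (by linarith)
    rw [per1] at this
    linarith
  obtain ⟨w₀, hw₀, w1, w2⟩ := rowGlue C 1 u.1 α C.P.one_mem u.2.1 hα (u2 α le_rfl a2.le).symm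
  obtain ⟨w, hw, w3, w4⟩ := rowGlue C w₀ 1 β hw₀ C.P.one_mem hβA
    (by rw [w2 β (by linarith), u1 β b1.le (by linarith), one_app])
  have w5 : ∀ y, α ≤ y → y ≤ β → w y = u.1 y := fun y p q => by rw [w3 y q, w2 y p]
  have w6 : ∀ y, y ≤ a' → w y = y := fun y p => by
    rcases le_total y α with d | d
    · rw [w3 y (by linarith), w1 y d, one_app]
    · rw [w5 y d (by linarith), u2 y d p]
  have w7 : ∀ y, b' ≤ y → w y = y := fun y p => by
    rcases le_total y β with d | d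
    · rw [w5 y (by linarith) d, u1 y p (by linarith)]
    · rw [w4 y d, one_app]
  obtain ⟨R, r1, r2⟩ := ex a' b' a2 b1
  obtain ⟨g, hg, g1⟩ := ch_loc' hf f1 R
  have r0 : (0 : ℝ) ≤ R := Nat.cast_nonneg R
  have r3 := g1 _ le_rfl (by linarith)
  have r4 := g1 _ (by linarith) le_rfl
  have out : ∀ y : ℝ, y ≤ -R ∨ R ≤ y → (g⁻¹ * w * g) y = y := fun y p => by
    rw [mul_app, mul_app]
    rcases p with p | p
    · rw [w6 _ (by linarith [g.monotone p]), inv_apply]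
    · rw [w7 _ (by linarith [g.monotone p]), inv_apply]
  obtain ⟨v, hv, v1, v2⟩ := hS (x := g⁻¹ * w * g)
    ⟨C.P.mul_mem (C.P.mul_mem (C.P.inv_mem hg) hw) hg, mem_Germ_ends.2 ⟨R, out⟩⟩
  have v3 : ∀ y, u.1 (ch c f y) = ch c f ((g⁻¹ * w * g) y) := fun y => by
    rcases le_total y (-R) with d | d
    · rw [out y (Or.inl d), u2 _ (rng y).1.le ((mono d).trans r1)]
    rcases le_total y R with d' | d'
    · have q1 := (g⁻¹ * w * g).monotone d
      have q2 := (g⁻¹ * w * g).monotone d'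
      rw [out _ (Or.inl le_rfl)] at q1
      rw [out _ (Or.inr le_rfl)] at q2
      rw [g1 _ q1 q2, mul_app, mul_app, apply_inv, ← g1 y d d', w5 _ (rng y).1.le (rng y).2.le]
    · rw [out y (Or.inr d'), u1 _ (r2.trans (mono d')) (by linarith [(rng y).2])]
  rw [show u = v from Subtype.ext (OrderIso.ext (funext fun y => ?_))]
  · exact hv
  obtain ⟨j, j1, j2⟩ := Frag.exists_shift y β
  rcases le_or_gt (y + j) (α + 1) with d | d
  · rw [Frag.fix_int u.2.2 j (u1 _ (by linarith) (by linarith)), Frag.fix_int v.2.2 j (v2 _ j1 d)]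
  · obtain ⟨z, hz⟩ := surj (y + (j - 1 : ℤ)) (by push_cast; linarith) (by push_cast; linarith)
    have q := (v3 z).trans (v1 z).symm
    rw [hz, per, per] at q
    exact add_right_cancel q

end Pool.Agent.MP_3aea93_al.H72
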