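import Pool.Agent.MP_3aea93_al.H72.FG

/-! The local cost of a map along an arc. -/

set_option autoImplicit false

namespace Pool.Agent.MP_3aea93_al.H72

open Set Filter Topology H75

variable {C : Ctx}

theorem extP {f : ℝ ≃o ℝ} (hf : f ∈ C.P) {p a b q : ℝ} (ha : a ∈ C.A) (hb : b ∈ C.A) (hab : a ≤ b)
    (h1 : p < a) (h2 : p < f a) (h3 : b < q) (h4 : f b < q) (h5 : q ≤ p + 1) :
    ∃ g ∈ Nn C q (p + 1), ∀ x, a ≤ x → x ≤ b → g.1 x = f x := by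
  obtain ⟨p', hp, p1, p2⟩ := C.dense (lt_min h1 h2)
  obtain ⟨p3, p4⟩ := lt_min_iff.1 p2
  obtain ⟨q', hq, q1, q2⟩ := C.dense (max_lt h3 h4)
  obtain ⟨q3, q4⟩ := max_lt_iff.1 q1
  have fa := (Ctx.mem_A hf a).2 ha
  have fb := (Ctx.mem_A hf b).2 hb
  have fab := f.monotone hab
  obtain ⟨k, hk, k1, k2⟩ := hE C p' a 1 (f a - a) hp ha C.L.one_mem (C.A.sub_mem fa ha) p3
    (by linarith)
  obtain ⟨k', hk', k3, k4⟩ := hX C p' b b q' 1 (f b - b) hp hb hb hq C.L.one_mem (C.A.sub_mem fb hb)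
    (by linarith) le_rfl q3 (by linarith) (by linarith)
  obtain ⟨h, hh, a1, a2⟩ := rowGlue C k f a hk hf ha (by rw [k2 a le_rfl]; ring)
  obtain ⟨h', hh', a3, a4⟩ := rowGlue C h k' b hh hk' hb
    (by rw [a2 b hab, k4 b le_rfl le_rfl]; ring)
  have a5 : ∀ x, q' ≤ x → h' x = x := fun x c => by rw [a4 x (by linarith), k3 x (Or.inr c)]
  obtain ⟨g, hg, g1⟩ := rowPer C h' p' hh' hp (by
    rw [a5 _ (by linarith), a3 p' (by linarith), a1 p' p3.le, k1 p' le_rfl])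
  refine ⟨⟨g, hg⟩, ⟨q', p' + 1, q2, by linarith, fun x c d => ?_⟩, fun x c d => ?_⟩
  · show g x = x
    rw [g1 x (by linarith) d, a5 x c]
  · show g x = f x
    rw [g1 x (by linarith) (by linarith), a3 x d, a2 x c]

variable {X : Type} [MulAction C.G X]

variable (C X) in
/-- the points fixed by the elements that are the identity near `[u, v]` -/
def Ys (u v : ℝ) : Set X := {y | ∀ p ∈ Nn C u v, p • y = y}

theorem Ys_mono {u v u' v' : ℝ} (h1 : u' ≤ u) (h2 : v ≤ v') : Ys C X u v ⊆ Ys C X u' v' :=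
  fun _ hy p hp => hy p (Nn_mono h1 h2 hp)

theorem Ys_smul {u v : ℝ} {y : X} (g : C.G) (hy : y ∈ Ys C X u v) :
    g • y ∈ Ys C X (g.1 u) (g.1 v) := by
  intro p hp
  have h1 := Nn_conj g⁻¹ hp
  rw [show g⁻¹.1 (g.1 u) = u from inv_apply _ _, show g⁻¹.1 (g.1 v) = v from inv_apply _ _,
    inv_inv] at h1
  have h2 := hy _ h1
  rw [mul_smul, mul_smul, inv_smul_eq_iff] at h2
  exact h2

theorem Ys_germ {u v q p : ℝ} {g g' : C.G} (h1 : q < u) (h2 : v < p)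
    (h : ∀ x, q ≤ x → x ≤ p → g.1 x = g'.1 x) : ∀ y ∈ Ys C X u v, g • y = g' • y := by
  intro y hy
  have h3 := hy (g'⁻¹ * g) ⟨q, p, h1, h2, fun x a b => inv_eq_of (f := g'.1) (h x a b).symm⟩
  rwa [mul_smul, inv_smul_eq_iff] at h3

variable (C) in
/-- `f` costs at most `k` along `[u, v]` -/
def Loc (M : Set X) (f : ℝ → ℝ) (u v : ℝ) (k : ℕ) : Prop :=
  ∃ g : C.G, (∃ q p : ℝ, q < u ∧ v < p ∧ ∀ x, q ≤ x → x ≤ p → g.1 x = f x) ∧
    nb M g (Ys C X u v) ≤ k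

variable {M : Set X}

theorem Loc.nb_le {g : C.G} {u v : ℝ} {k : ℕ} (h : Loc C M g.1 u v k) : nb M g (Ys C X u v) ≤ k := by
  obtain ⟨g', ⟨q, p, a, b, c⟩, d⟩ := h
  rwa [nb_congr (Ys_germ a b c)] at d

theorem Loc.near {f f' : ℝ → ℝ} {u v q p : ℝ} {k : ℕ} (h : Loc C M f u v k) (h1 : q < u) (h2 : v < p)
    (e : ∀ x, q ≤ x → x ≤ p → f x = f' x) : Loc C M f' u v k := by
  obtain ⟨g, ⟨q', p', a, b, c⟩, d⟩ := h
  exact ⟨g, ⟨max q q', min p p', max_lt h1 a, lt_min h2 b, fun x s t =>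
    (c x ((le_max_right _ _).trans s) (t.trans (min_le_right _ _))).trans
      (e x ((le_max_left _ _).trans s) (t.trans (min_le_left _ _)))⟩, d⟩

theorem Loc.congr {f f' : ℝ → ℝ} {u v : ℝ} {k : ℕ} (h : Loc C M f u v k) (e : ∀ x, f x = f' x) :
    Loc C M f' u v k := funext e ▸ h

theorem Loc.le {f : ℝ → ℝ} {u v : ℝ} {k k' : ℕ} (h : Loc C M f u v k) (e : k ≤ k') :
    Loc C M f u v k' := let ⟨g, a, b⟩ := h; ⟨g, a, b.trans e⟩

theorem exLoc {f : ℝ ≃o ℝ} (hf : f ∈ C.P) {u v : ℝ} (h : u ≤ v)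
    (h1 : max v (f v) - 1 < min u (f u)) : ∃ k, Loc C M f u v k := by
  obtain ⟨p, p1, p2⟩ := exists_between h1
  obtain ⟨p3, p4⟩ := lt_min_iff.1 p2
  obtain ⟨p5, p6⟩ := max_lt_iff.1 (sub_lt_iff_lt_add.1 p1)
  obtain ⟨a, ha, a1, a2⟩ := C.dense (max_lt p3 (f.symm_apply_lt.2 p4))
  obtain ⟨a3, a4⟩ := max_lt_iff.1 a1
  obtain ⟨b, hb, b1, b2⟩ := C.dense (lt_min p5 (f.lt_symm_apply.2 p6))
  obtain ⟨b3, b4⟩ := lt_min_iff.1 b2
  obtain ⟨g, -, hg⟩ := extP hf ha hb (by linarith) a3 (f.symm_apply_lt.1 a4) b3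
    (f.lt_symm_apply.1 b4) le_rfl
  exact ⟨_, g, ⟨a, b, a2, b1, hg⟩, le_rfl⟩

variable (hf : ∀ g : C.G, (Sd M g).Finite)
include hf

theorem Loc.mono {f : ℝ → ℝ} {u v u' v' : ℝ} {k : ℕ} (h : Loc C M f u' v' k) (h1 : u' ≤ u)
    (h2 : v ≤ v') : Loc C M f u v k :=
  let ⟨g, ⟨q, p, a, b, c⟩, d⟩ := h
  ⟨g, ⟨q, p, a.trans_le h1, h2.trans_lt b, c⟩, (nb_mono hf g (Ys_mono h1 h2)).trans d⟩

theorem Loc.comp {f f' : ℝ → ℝ} {u v u' v' : ℝ} {k k' : ℕ} (h : Loc C M f u v k)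
    (h' : Loc C M f' u' v' k') (h0 : u ≤ v) (h1 : u' ≤ f u) (h2 : f v ≤ v') :
    Loc C M (fun x => f' (f x)) u v (k' + k) := by
  obtain ⟨g, ⟨q, p, a, b, c⟩, d⟩ := h
  obtain ⟨g', ⟨q', p', a', b', c'⟩, d'⟩ := h'
  rw [← c u a.le (by linarith)] at h1
  rw [← c v (by linarith) b.le] at h2
  refine ⟨g' * g, ⟨max q (g.1.symm q'), min p (g.1.symm p'),
    max_lt a (g.1.symm_apply_lt.2 (a'.trans_le h1)),
    lt_min b (g.1.lt_symm_apply.2 (h2.trans_lt b')), fun x s t => ?_⟩, ?_⟩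
  · obtain ⟨s1, s2⟩ := max_le_iff.1 s
    obtain ⟨t1, t2⟩ := le_min_iff.1 t
    show g'.1 (g.1 x) = f' (f x)
    rw [c' _ (g.1.symm_apply_le.1 s2) (g.1.le_symm_apply.1 t2), c x s1 t1]
  · exact (nb_mul hf g' g fun y hy => Ys_mono h1 h2 (Ys_smul g hy)).trans (add_le_add d' d)

omit hf in
variable (C) in
/-- the translation by `c` costs at most `k` along the arcs of length `w` -/
def U (M : Set X) (w c : ℝ) (k : ℕ) : Prop := ∀ u, Loc C M (fun x => x + c) u (u + w) k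

theorem U.add {w c c' : ℝ} {k k' : ℕ} (hw : 0 ≤ w) (h : U C M w c k) (h' : U C M w c' k') :
    U C M w (c + c') (k' + k) := fun u =>
  ((h u).comp hf (h' (u + c)) (by linarith) le_rfl (by linarith)).congr fun x => by ring

variable (h1 : ∀ y : X, rot C 1 C.A.one_mem • y = y)
include h1

omit hf in
theorem fin_nb {e : ℝ} (he : e ∈ C.A) : ∃ k, ∀ (z : ℤ) (h : z * e ∈ C.A),
    nb M (rot C (z * e) h) univ ≤ k := by
  obtain ⟨ε, hε, e0, -, i, j, e1, e2⟩ := C.cyc e he 1 C.A.one_mem 1 one_pos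
  have j0 : 0 < j := by
    have : (0 : ℝ) < j := (mul_pos_iff_of_pos_right e0).1 (e2 ▸ one_pos)
    exact_mod_cast this
  have hA : ∀ r : ℤ, r * ε ∈ C.A := fun r => C.A.mul_mem (intCast_mem _ _) hε
  refine ⟨∑ r ∈ Finset.Ico 0 j, nb M (rot C (r * ε) (hA r)) univ, fun z h => ?_⟩
  have s1 : ∀ (t : ℤ) (y : X), rot C t (intCast_mem _ _) • y = y := fun t y => by
    have := Frag.tr_int (S := (MulAction.stabilizer C.G y).map C.G.subtype) ⟨_, h1 y, rfl⟩ t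
    obtain ⟨g, hg, e⟩ := this
    rw [show rot C t (intCast_mem _ _) = g from Subtype.ext e.symm]
    exact hg
  have s2 : rot C (z * e) h = rot C (((z * i) % j : ℤ) * ε) (hA _) *
      rot C ((z * i) / j : ℤ) (intCast_mem _ _) := by
    refine Subtype.ext (Eq.trans ?_ (Frag.tr_add _ _))
    show tr _ = tr _
    congr 1
    have := congrArg (Int.cast : ℤ → ℝ) (Int.emod_add_mul_ediv (z * i) j)
    rw [Int.cast_add, Int.cast_mul, Int.cast_mul] at this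
    rw [e1, ← mul_assoc, ← this, add_mul, mul_right_comm, ← e2, one_mul]
  rw [nb_congr (g' := rot C (((z * i) % j : ℤ) * ε) (hA _)) fun y _ => by rw [s2, mul_smul, s1]]
  exact Finset.single_le_sum (f := fun r : ℤ => nb M (rot C (r * ε) (hA r)) univ)
    (fun _ _ => Nat.zero_le _)
    (Finset.mem_Ico.2 ⟨Int.emod_nonneg _ j0.ne', Int.emod_lt_of_pos _ j0⟩)

theorem fin {e : ℝ} (he : e ∈ C.A) : ∃ k, ∀ (z : ℤ) (w : ℝ), U C M w (z * e) k := by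
  obtain ⟨k, hk⟩ := fin_nb (M := M) h1 he
  have hA : ∀ z : ℤ, z * e ∈ C.A := fun z => C.A.mul_mem (intCast_mem _ _) he
  exact ⟨k, fun z w u => ⟨rot C _ (hA z), ⟨u - 1, u + w + 1, by linarith, by linarith,
    fun _ _ _ => rfl⟩, (nb_mono hf _ (subset_univ _)).trans (hk z _)⟩⟩

omit hf h1 in
theorem flo {e : ℝ} (e0 : 0 < e) (u : ℝ) : ∃ z : ℤ, z * e ≤ u ∧ u ≤ z * e + e := by
  have a := Int.floor_le (u / e)
  have b := (Int.lt_floor_add_one (u / e)).le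
  rw [le_div_iff₀ e0] at a
  rw [div_le_iff₀ e0] at b
  exact ⟨_, a, by linarith⟩

theorem dil {l w : ℝ} (hl : l ∈ C.L) (w0 : 0 ≤ w) (w1 : w < 1) (w2 : l * w < 1) :
    ∃ k, ∀ u, Loc C M (fun x => l * x) u (u + w) k := by
  have l0 := C.pos l hl
  obtain ⟨e, he, e0, e1⟩ := C.dense (lt_min (sub_pos.2 w1) (div_pos (sub_pos.2 w2) l0))
  obtain ⟨e2, e3⟩ := lt_min_iff.1 e1
  rw [lt_div_iff₀ l0] at e3
  obtain ⟨k₀, h₀⟩ := exLoc (M := M) (af_mem hl C.A.zero_mem) (u := 0) (v := w + e) (by linarith) (by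
    rw [af_app, af_app, mul_zero, add_zero, add_zero, min_self, sub_neg]
    exact max_lt (by linarith) (by linarith))
  obtain ⟨k₁, h₁⟩ := fin hf h1 he
  obtain ⟨k₂, h₂⟩ := fin hf h1 (C.A.mul_mem (C.sub l hl) he)
  refine ⟨k₂ + (k₀ + k₁), fun u => ?_⟩
  obtain ⟨z, z1, z2⟩ := flo e0 u
  have a := (h₁ (-z) w u).comp hf h₀ (by linarith) (by push_cast; linarith) (by push_cast; linarith)
  refine (a.comp hf (h₂ z (l * w) _) (by linarith) le_rfl ?_).congr fun x => ?_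
  · rw [af_app, af_app]; linarith
  · rw [af_app]; push_cast; ring

theorem dbl {μ c w e : ℝ} {k₀ k : ℕ} (e0 : 0 < e) (e1 : e ≤ w) (w1 : 5 * w < 1)
    (a1 : ∀ z : ℤ, U C M w (z * e) k₀) (a2 : ∀ z : ℤ, U C M (μ * w) (z * (μ * e)) k₀)
    (h : Loc C M (fun x => μ * x + c) 0 (5 * w) k) (u : ℝ) :
    Loc C M (fun x => μ * x + c) u (u + w) (k / 2 + 2 * k₀) := by
  obtain ⟨s, hs⟩ : ∃ s, Loc C M (fun x => μ * x + c) s (s + 2 * w) (k / 2) := by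
    obtain ⟨g, ⟨q, p, a, b, d⟩, hg⟩ := h
    have := nb_add hf g (Y := Ys C X 0 (5 * w)) (Y₁ := Ys C X 0 (0 + 2 * w))
      (Y₂ := Ys C X (3 * w) (3 * w + 2 * w)) (Ys_mono le_rfl (by linarith))
      (Ys_mono (by linarith) (by linarith)) fun y y1 y2 =>
        two (S := MulAction.stabilizer C.G y) (by linarith) (by linarith) (by linarith)
          (by linarith) (h1 y) y1 y2 g
    by_cases t : nb M g (Ys C X 0 (0 + 2 * w)) ≤ k / 2
    · exact ⟨0, g, ⟨q, p, a, by linarith, d⟩, t⟩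
    · exact ⟨3 * w, g, ⟨q, p, by linarith, by linarith, d⟩, by omega⟩
  obtain ⟨z, z1, z2⟩ := flo e0 (u - s)
  have a := (a1 (-z) u).comp hf hs (by linarith) (by push_cast; linarith) (by push_cast; linarith)
  refine ((a.comp hf (a2 z _) (by linarith) le_rfl (by linarith)).congr fun x => ?_).le (by omega)
  push_cast; ring

omit h1 in
theorem scal {l w w' : ℝ} {f : ℝ → ℝ} {k₁ k₂ k : ℕ} (l0 : 0 < l) (w0 : 0 ≤ w)
    (a1 : ∀ u, Loc C M (fun x => l⁻¹ * x) u (u + l * w) k₁)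
    (a2 : ∀ u, Loc C M (fun x => l * x) u (u + w') k₂) {u : ℝ}
    (h : Loc C M f (l⁻¹ * u) (l⁻¹ * u + w) k) (h2 : f (l⁻¹ * u + w) ≤ f (l⁻¹ * u) + w') :
    Loc C M (fun x => l * f (l⁻¹ * x)) u (u + l * w) (k₂ + (k + k₁)) := by
  have p : 0 ≤ l * w := mul_nonneg l0.le w0
  have e : l⁻¹ * (u + l * w) = l⁻¹ * u + w := by field_simp
  exact ((a1 u).comp hf h (by linarith) le_rfl e.le).comp hf (a2 _) (by linarith) le_rfl
    (by rw [e]; exact h2)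

theorem U_up {l w : ℝ} (hl : l ∈ C.L) (w0 : 0 ≤ w) (w1 : w < 1) (w2 : l * w < 1) :
    ∃ k₀, ∀ c k, U C M w c k → U C M (l * w) (l * c) (k + k₀) := by
  have l0 := C.pos l hl
  obtain ⟨k₁, a1⟩ := dil hf h1 (C.inv l hl) (mul_nonneg l0.le w0) w2
    (by rwa [inv_mul_cancel_left₀ l0.ne'])
  obtain ⟨k₂, a2⟩ := dil hf h1 hl w0 w1 w2
  refine ⟨k₁ + k₂, fun c k h u => ?_⟩
  refine ((scal hf l0 w0 a1 a2 (h _) (by linarith)).congr fun x => ?_).le (by omega)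
  field_simp

theorem U_half {l w : ℝ} (hl : l ∈ C.L) (l5 : 5 ≤ l) (w0 : 0 < w) (w2 : l * w < 1) :
    ∃ k₀, ∀ c k, U C M w c k → U C M w (l * c) (k / 2 + k₀) := by
  have p : 5 * w ≤ l * w := mul_le_mul_of_nonneg_right l5 w0.le
  obtain ⟨k₁, a1⟩ := U_up hf h1 hl w0.le (by linarith) w2
  obtain ⟨e, he, e0, e1⟩ := C.dense w0
  obtain ⟨k₂, a2⟩ := fin hf h1 he
  refine ⟨k₁ + 2 * k₂, fun c k h u => ?_⟩
  have a3 := ((a1 c k h 0).mono hf le_rfl (by linarith : 5 * w ≤ 0 + l * w)).congr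
    (f' := fun x => 1 * x + l * c) fun x => by rw [one_mul]
  refine ((dbl hf h1 e0 e1.le (by linarith) (fun z => a2 z w)
    (fun z => by rw [one_mul e]; exact a2 z _) a3 u).congr fun x => by rw [one_mul]).le (by omega)

end Pool.Agent.MP_3aea93_al.H72
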