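import Pool.Agent.MP_3aea93_al.H72.Brk

/-! The bound for the elements with bounded jumps. -/

set_option autoImplicit false

namespace Pool.Agent.MP_3aea93_al.H72

open Set Filter Topology H75

variable {C : Ctx} {X : Type} [MulAction C.G X] {M : Set X} (hf : ∀ g : C.G, (Sd M g).Finite)
  {k : ℕ} {n : Fin k → ℕ} (hn : ∀ i, 1 < n i) (hA : (C.A : Set ℝ) = ring n)
  (hL : (C.L : Set ℝ) = slopes n)
include hf hn hA hL

theorem bigY {a a' b' b : ℝ} (h1 : a < a') (h2 : a' < b') (h3 : b' < b) (h4 : b < a + 1) :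
    ∃ c : ℕ, ∀ g ∈ Nn C b' (a' + 1), nb M g (Ys C X a b)ᶜ ≤ c := by
  obtain ⟨d, d0, hd⟩ : ∃ d : ℝ, 0 < d ∧ b + 6 * d = a + 1 := ⟨(a + 1 - b) / 6, by linarith, by ring⟩
  obtain ⟨T₁, t1, p1, q1⟩ := fg hn hA hL h1 h2 h3 h4.le
  obtain ⟨T₃, t3, p3, q3⟩ := fg hn hA hL (a := b) (a' := b + d) (b' := b + 2 * d) (b := b + 3 * d)
    (by linarith) (by linarith) (by linarith) (by linarith)
  obtain ⟨T₄, t4, p4, q4⟩ := fg hn hA hL (a := b + 3 * d) (a' := b + 4 * d) (b' := b + 5 * d)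
    (b := a + 1) (by linarith) (by linarith) (by linarith) (by linarith)
  have int : ∀ u v : ℝ, u ≤ a + 1 → b + 1 ≤ v → v < u + 1 →
      ∀ p ∈ Nn C a b, ∃ k ∈ Nn C a b, k * p * k⁻¹ ∈ Nn C u v := fun u v s t r p hp =>
    let ⟨k, hk, e⟩ := into (by linarith) s t r p (Nn_succ hp); ⟨k, Nn_pred hk, e⟩
  exact prod hf (P₂ := Nn C a b) t1 t3 t4 q1 q3 q4
    (fun g hg => Nn_pred (Nn_mono (by linarith) le_rfl (p3 hg)))
    (fun g hg => Nn_pred (Nn_mono le_rfl (by linarith) (p4 hg)))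
    (fun g hg p hp => (Nn_comm hp (p1 hg) le_rfl le_rfl).symm)
    (fun g hg p hp => Nn_comm (p3 hg) (p4 hp) (by linarith) le_rfl)
    (nf (by linarith) (by linarith)) (nf (by linarith) h4) (nf (by linarith) (by linarith))
    (nf (by linarith) (by linarith)) (perf (by linarith))
    (int _ _ (by linarith) (by linarith) (by linarith))
    (int _ _ (by linarith) (by linarith) (by linarith))

omit hf hn hA hL in
theorem Jumps.br {N : ℕ} {J : Finset ℝ} {F : ℝ → ℝ} (h : Jumps N J F) :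
    ∃ B : Finset ℝ, B.card ≤ N * 4 ∧ Br J F (-1) 2 B := by
  classical
  obtain ⟨B, hB, h⟩ := h
  refine ⟨((B ×ˢ Finset.Icc (-1 : ℤ) 2).image fun p : ℝ × ℤ => p.1 + p.2).filter
    fun x => Int.fract x ∈ B, ?_, fun x a b => ⟨fun c => (h x).1 fun d => c ?_, fun c => ?_⟩⟩
  · refine (Finset.card_filter_le _ _).trans (Finset.card_image_le.trans ?_)
    rw [Finset.card_product]
    exact Nat.mul_le_mul hB (by simp)
  · refine Finset.mem_filter.2 ⟨Finset.mem_image.2 ⟨(Int.fract x, ⌊x⌋), Finset.mem_product.2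
      ⟨d, Finset.mem_Icc.2 ⟨Int.le_floor.2 (by exact_mod_cast a), ?_⟩⟩, Int.fract_add_floor x⟩, d⟩
    have : (⌊x⌋ : ℝ) ≤ 2 := (Int.floor_le x).trans b
    exact_mod_cast this
  · exact (h x).2 (Finset.mem_filter.1 c).2

theorem bound (h1 : ∀ y : X, rot C 1 C.A.one_mem • y = y) (hR : RotB C M) (N : ℕ) (J : Finset ℝ) :
    ∃ c : ℕ, ∀ g : C.G, Jumps N J g.1 → nb M g univ ≤ c := by
  obtain ⟨R₀, r1, r2⟩ := exR J
  obtain ⟨R, R1, hlip⟩ : ∃ R : ℝ, 1 ≤ R ∧ ∀ (g : C.G) (B : Finset ℝ), B.card ≤ N * 4 →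
      Br J g.1 (-1) 2 B → ∀ x y, -1 ≤ x → x ≤ y → y ≤ 2 →
        g.1 y - g.1 x ≤ R * (y - x) ∧ y - x ≤ R * (g.1 y - g.1 x) := by
    have q1 : 1 ≤ R₀ ^ (N * 4) := one_le_pow₀ r1
    refine ⟨R₀ ^ (N * 4) * R₀ ^ (N * 4), one_le_mul_of_one_le_of_one_le q1 q1,
      fun g B hB h x y a b c => ?_⟩
    obtain ⟨μ, m0, e⟩ := Br.slope r1 r2 (by norm_num) B g.1 g.2.1 h
    have q2 : R₀ ^ B.card ≤ R₀ ^ (N * 4) := pow_le_pow_right₀ r1 hB
    have q3 : 1 ≤ R₀ ^ B.card := one_le_pow₀ r1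
    obtain ⟨e1, e2⟩ := e 0 (0 + 1) (by norm_num) (by norm_num) (by norm_num)
    rw [per1] at e1 e2
    obtain ⟨e3, e4⟩ := e x y a b c
    have e5 := sub_nonneg.2 (g.1.monotone b)
    have e6 := sub_nonneg.2 b
    generalize R₀ ^ B.card = s at *
    generalize R₀ ^ (N * 4) = t at *
    generalize g.1 y - g.1 x = D at *
    generalize y - x = d at *
    have e7 : s * s ≤ t * t := mul_le_mul q2 q2 (by linarith) (by linarith)
    have e8 : μ ≤ s := by linarith
    have e9 : 1 ≤ s * μ := by linarith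
    constructor
    · have : s * μ ≤ t * t := (mul_le_mul_of_nonneg_left e8 (by linarith)).trans e7
      nlinarith
    · have a1 : d ≤ s * μ * d := by nlinarith
      have a2 : s * (μ * d) ≤ s * (s * D) := mul_le_mul_of_nonneg_left e4 (by linarith)
      nlinarith
  have R0 : 0 < R := by linarith
  obtain ⟨a, ha, a0, a1⟩ := C.dense (by positivity : 0 < 1 / (16 * R))
  rw [lt_div_iff₀ (by positivity)] at a1
  have a2 : a < 1 / 16 := by nlinarith
  obtain ⟨η, η0, η1⟩ : ∃ η : ℝ, 0 < η ∧ R * η = a / 2 := ⟨a / (2 * R), by positivity, by field_simp⟩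
  have η2 : η ≤ a / 2 := by nlinarith
  obtain ⟨K, hK⟩ := Br.big hf h1 hR J (w := 1 - η) (by linarith) (by linarith) R0 (N * 4)
  obtain ⟨c₁, b1⟩ := bigY hf hn hA hL (a := -1 / 3) (a' := -1 / 4) (b' := 1 / 4) (b := 1 / 3)
    (by norm_num) (by norm_num) (by norm_num) (by norm_num)
  obtain ⟨c₂, b2⟩ := bigY hf hn hA hL (a := a / 4) (a' := a / 2) (b' := -a / 2 + 1) (b := -a / 4 + 1)
    (by linarith) (by linarith) (by linarith) (by linarith)
  obtain ⟨k₀, b0⟩ := fin_nb (M := M) h1 ha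
  have main : ∀ g : C.G, Jumps N J g.1 → 0 ≤ g.1 0 → g.1 0 ≤ a → nb M g univ ≤ K + K + (c₁ + c₂) := by
    intro g hg z0 z1
    obtain ⟨B, hB, h⟩ := hg.br
    have lip := hlip g B hB h
    have loc : ∀ u v, -1 ≤ u → u < v → v ≤ 2 → v ≤ u + (1 - η) → g.1 v ≤ g.1 u + (1 - η) →
        nb M g (Ys C X u v) ≤ K := fun u v p q r s t =>
      (hK B hB g.1 g.2.1 u v q s t (fun x c d => h x (p.trans c) (d.trans r))
        fun x y c d e => (lip x y (p.trans c) d (e.trans r)).1).nb_le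
    have l1 := (lip (-a) 0 (by linarith) (by linarith) (by norm_num)).1
    have l2 := (lip 0 a (by norm_num) a0.le (by linarith)).1
    obtain ⟨g₁, c1, c2⟩ := extP g.2.1 (p := -1 / 4) (q := 1 / 4) (C.A.neg_mem ha) ha (by linarith)
      (by linarith) (by linarith) (by linarith) (by linarith) (by norm_num)
    have c3 : g₁⁻¹ * g ∈ Nn C (-a / 2 + 1) (a / 2 + 1) :=
      Nn_succ ⟨-a, a, by linarith, by linarith, fun x c d => inv_eq_of (f := g₁.1) (c2 x c d)⟩
    have d1 := loc (a / 4) (-a / 4 + 1) (by linarith) (by linarith) (by linarith) (by linarith) (by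
      have := (lip (-a / 4) (a / 4) (by linarith) (by linarith) (by linarith)).2
      rw [per1]
      have e : η ≤ g.1 (a / 4) - g.1 (-a / 4) := le_of_mul_le_mul_left (by linarith) R0
      linarith)
    obtain ⟨u, hu⟩ := g.1.surjective (-1 / 3)
    obtain ⟨v, hv⟩ := g.1.surjective (1 / 3)
    have e1 := per1 g (-1)
    have e2 := per1 g 0
    have e3 := per1 g u
    rw [neg_add_cancel] at e1
    have u1 : -1 ≤ u := g.1.le_iff_le.1 (by linarith)
    have u2 : u < v := g.1.lt_iff_lt.1 (by linarith)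
    have u3 : v ≤ 0 + 1 := g.1.le_iff_le.1 (by linarith)
    have u4 : v ≤ u + 1 := g.1.le_iff_le.1 (by linarith)
    have d2 := loc u v u1 u2 (by linarith) (by
      have := (lip v (u + 1) (by linarith) u4 (by linarith)).1
      have e : η ≤ u + 1 - v := le_of_mul_le_mul_left (by linarith) R0
      linarith) (by linarith)
    have d3 : nb M g (Ys C X (a / 4) (-a / 4 + 1) ∪ Ys C X u v)ᶜ ≤ c₁ + c₂ := by
      have f := nb_mul hf g₁ (g₁⁻¹ * g) (Y := (Ys C X (a / 4) (-a / 4 + 1) ∪ Ys C X u v)ᶜ)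
        (Y' := (Ys C X (-1 / 3) (1 / 3))ᶜ) fun y hy p => hy (Or.inr ?_)
      · rw [mul_inv_cancel_left] at f
        exact f.trans (add_le_add (b1 g₁ c1)
          ((nb_mono hf _ (compl_subset_compl.2 subset_union_left)).trans (b2 _ c3)))
      · have f1 := Ys_smul (g₁⁻¹ * g)⁻¹ p
        rw [inv_smul_smul] at f1
        have f2 : g₁.1 (1 / 3) = 1 / 3 := Nn_fix c1 (by norm_num) (by norm_num)
        have f3 : g₁.1 (-1 / 3) = -1 / 3 := by
          have := per1 g₁ (-1 / 3)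
          rw [Nn_fix c1 (by norm_num) (by norm_num)] at this
          linarith
        rwa [show (g₁⁻¹ * g)⁻¹.1 (-1 / 3) = u from inv_eq_of (f := g₁.1⁻¹ * g.1)
            (by rw [mul_app, hu]; exact inv_eq_of f3),
          show (g₁⁻¹ * g)⁻¹.1 (1 / 3) = v from inv_eq_of (f := g₁.1⁻¹ * g.1)
            (by rw [mul_app, hv]; exact inv_eq_of f2)] at f1
    rw [← union_compl_self (Ys C X (a / 4) (-a / 4 + 1) ∪ Ys C X u v)]
    exact (nb_union _ _ _).trans (add_le_add ((nb_union _ _ _).trans (add_le_add d1 d2)) d3)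
  refine ⟨k₀ + (K + K + (c₁ + c₂)), fun g hg => ?_⟩
  obtain ⟨z, z1, z2⟩ := flo a0 (g.1 0)
  have hz : z * a ∈ C.A := C.A.mul_mem (intCast_mem _ _) ha
  have ap : ∀ y, ((rot C _ hz)⁻¹ * g).1 y = 1 * g.1 y + -(z * a) := fun y => by
    rw [one_mul]; exact tr_inv_app _ _
  have f := nb_mul hf (rot C _ hz) ((rot C _ hz)⁻¹ * g) (Y := univ) (Y' := univ) fun _ _ => trivial
  rw [mul_inv_cancel_left] at f
  refine f.trans (add_le_add (b0 z hz) (main _ ?_ (by rw [ap]; linarith) (by rw [ap]; linarith)))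
  obtain ⟨B, hB, h⟩ := hg
  exact ⟨B, hB, fun x => ⟨fun t => ((h x).1 t).post (Eventually.of_forall ap), fun t =>
    let ⟨s, hs, i⟩ := (h x).2 t; ⟨s, hs, i.post (Eventually.of_forall ap)⟩⟩⟩

end Pool.Agent.MP_3aea93_al.H72
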