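import Mathlib

/-! Commensurated subsets and commuting subgroups. -/

set_option autoImplicit false

namespace Pool.Agent.MP_3aea93_al.H72

open Set MulAction Pointwise

variable {H X : Type} [Group H] [MulAction H X] (M : Set X)

/-- the points that change side -/
def Sd (g : H) : Set X := {y | ¬(g • y ∈ M ↔ y ∈ M)}

/-- their number inside `Y` -/
noncomputable def nb (g : H) (Y : Set X) : ℕ := (Sd M g ∩ Y).ncard

variable {M}

section Nb

variable (hf : ∀ g : H, (Sd M g).Finite)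
include hf

theorem nb_mono (g : H) {Y Y' : Set X} (h : Y ⊆ Y') : nb M g Y ≤ nb M g Y' :=
  ncard_le_ncard (inter_subset_inter_right _ h) ((hf g).inter_of_left _)

theorem nb_mul (g h : H) {Y Y' : Set X} (e : ∀ y ∈ Y, h • y ∈ Y') :
    nb M (g * h) Y ≤ nb M g Y' + nb M h Y := by
  have h1 : Sd M (g * h) ∩ Y ⊆ (fun y => h⁻¹ • y) '' (Sd M g ∩ Y') ∪ (Sd M h ∩ Y) := by
    rintro y ⟨a, b⟩
    by_cases c : y ∈ Sd M h
    · exact Or.inr ⟨c, b⟩
    · refine Or.inl ⟨h • y, ⟨fun d => a ?_, e y b⟩, inv_smul_smul h y⟩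
      rw [mul_smul]
      exact d.trans (not_not.1 c)
  refine (ncard_le_ncard h1 ((((hf g).inter_of_left _).image _).union
    ((hf h).inter_of_left _))).trans ((ncard_union_le _ _).trans ?_)
  rw [ncard_image_of_injective _ (MulAction.injective h⁻¹)]
  exact le_rfl

theorem nb_inv (g : H) : nb M g⁻¹ univ ≤ nb M g univ := by
  have h1 : Sd M g⁻¹ ∩ univ ⊆ (fun y => g • y) '' (Sd M g ∩ univ) := by
    rintro y ⟨a, -⟩
    refine ⟨g⁻¹ • y, ⟨fun d => a ?_, trivial⟩, smul_inv_smul g y⟩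
    rw [smul_inv_smul] at d
    exact d.symm
  refine (ncard_le_ncard h1 (((hf g).inter_of_left _).image _)).trans ?_
  rw [ncard_image_of_injective _ (MulAction.injective g)]
  exact le_rfl

theorem nb_add (g : H) {Y Y₁ Y₂ : Set X} (h1 : Y₁ ⊆ Y) (h2 : Y₂ ⊆ Y)
    (h : ∀ y ∈ Y₁, y ∈ Y₂ → g • y = y) : nb M g Y₁ + nb M g Y₂ ≤ nb M g Y := by
  unfold nb
  rw [← ncard_union_eq _ ((hf g).inter_of_left _) ((hf g).inter_of_left _)]
  · exact ncard_le_ncard (union_subset (inter_subset_inter_right _ h1)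
      (inter_subset_inter_right _ h2)) ((hf g).inter_of_left _)
  · refine disjoint_left.2 fun y a b => a.1 ?_
    rw [h y a.2 b.2]

omit hf in
theorem nb_union (g : H) (Y₁ Y₂ : Set X) : nb M g (Y₁ ∪ Y₂) ≤ nb M g Y₁ + nb M g Y₂ := by
  unfold nb
  rw [inter_union_distrib_left]
  exact ncard_union_le _ _

omit hf in
theorem nb_congr {g g' : H} {Y : Set X} (h : ∀ y ∈ Y, g • y = g' • y) : nb M g Y = nb M g' Y := by
  unfold nb
  congr 1
  ext y
  refine and_congr_left fun a => ?_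
  show ¬(g • y ∈ M ↔ y ∈ M) ↔ ¬(g' • y ∈ M ↔ y ∈ M)
  rw [h y a]

end Nb

/-- no proper subgroup of finite index -/
def NF (P : Subgroup H) : Prop := ∀ U : Subgroup P, U.FiniteIndex → U = ⊤

theorem NF.fix {Z : Type} [MulAction H Z] {P : Subgroup H} (h : NF P) {z : Z}
    (hz : (orbit P z).Finite) {p : H} (hp : p ∈ P) : p • z = z := by
  have h1 : (stabilizer P z).FiniteIndex := ⟨by
    rw [index_stabilizer]
    exact ((ncard_pos hz).2 ⟨z, mem_orbit_self z⟩).ne'⟩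
  have h2 : (⟨p, hp⟩ : P) ∈ stabilizer P z := by rw [h _ h1]; trivial
  exact h2

theorem mem_orb {K : Subgroup H} {y z : X} : y ∈ orbit K z ↔ ∃ k ∈ K, k • z = y :=
  ⟨fun ⟨k, hk⟩ => ⟨k, k.2, hk⟩, fun ⟨k, hk, e⟩ => ⟨⟨k, hk⟩, e⟩⟩

theorem orb_smul {K : Subgroup H} {y z : X} {k : H} (hk : k ∈ K) (h : y ∈ orbit K z) :
    k • y ∈ orbit K z := by
  obtain ⟨j, hj, rfl⟩ := mem_orb.1 h
  exact mem_orb.2 ⟨k * j, K.mul_mem hk hj, mul_smul _ _ _⟩

variable (M) in
/-- the union of the sets attached to the generators -/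
def Bd (T : Set H) : Set X := ⋃ s ∈ T, Sd M s

theorem good {T : Set H} {z : X} (h : ∀ y ∈ orbit (Subgroup.closure T) z, y ∉ Bd M T) {y : X}
    (hy : y ∈ orbit (Subgroup.closure T) z) : y ∈ M ↔ z ∈ M := by
  have key : ∀ k ∈ Subgroup.closure T, ∀ w ∈ orbit (Subgroup.closure T) z, (k • w ∈ M ↔ w ∈ M) := by
    intro k hk
    induction hk using Subgroup.closure_induction with
    | mem s hs => exact fun w hw => not_not.1 fun a => h w hw (mem_biUnion hs a)
    | one => intro w _; rw [one_smul]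
    | mul a b _ hb h1 h2 =>
      intro w hw
      rw [mul_smul]
      exact (h1 _ (orb_smul hb hw)).trans (h2 w hw)
    | inv a ha h1 =>
      intro w hw
      have := h1 _ (orb_smul (Subgroup.inv_mem _ ha) hw)
      rw [smul_inv_smul] at this
      exact this.symm
  obtain ⟨k, hk, rfl⟩ := mem_orb.1 hy
  exact key k hk z (mem_orbit_self z)

theorem alt {K P : Subgroup H} {B : Set X} (hB : B.Finite) (hP : NF P)
    (hc : ∀ k ∈ K, ∀ p ∈ P, Commute k p) (z : X) :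
    (∃ p ∈ P, ∀ y ∈ orbit K (p • z), y ∉ B) ∨ ∀ p ∈ P, p • z ∈ orbit K z := by
  by_cases h : ∃ p ∈ P, ∀ y ∈ orbit K (p • z), y ∉ B
  · exact Or.inl h
  push Not at h
  refine Or.inr fun p hp => ?_
  have e : ∀ q ∈ P, q • orbit K z = orbit K (q • z) := fun q hq => by
    ext y
    rw [mem_smul_set, mem_orb]
    constructor
    · rintro ⟨w, hw, rfl⟩
      obtain ⟨k, hk, rfl⟩ := mem_orb.1 hw
      exact ⟨k, hk, by rw [smul_smul, smul_smul, (hc k hk q hq).eq]⟩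
    · rintro ⟨k, hk, rfl⟩
      exact ⟨k • z, mem_orb.2 ⟨k, hk, rfl⟩, by rw [smul_smul, smul_smul, (hc k hk q hq).eq]⟩
  have h1 : (orbit P (orbit K z : Set X)).Finite := by
    refine (hB.image fun b => orbit K b).subset ?_
    rintro _ ⟨q, rfl⟩
    obtain ⟨y, hy, hb⟩ := h q q.2
    exact ⟨y, hb, (orbit_eq_iff.2 hy).trans (e q q.2).symm⟩
  have h2 := hP.fix h1 hp
  rw [← h2]
  exact smul_mem_smul_set (mem_orbit_self z)

variable (M) in
/-- membership in `M` is constant on `O` off a finite set -/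
def CC (O : Set X) : Prop := ∃ D : Set X, D.Finite ∧ ∀ y ∈ O, ∀ w ∈ O, y ∉ D → w ∉ D → (y ∈ M ↔ w ∈ M)

variable (hf : ∀ g : H, (Sd M g).Finite)
include hf

theorem fam {K : Subgroup H} {T : Set H} (hT : T.Finite) {z : X}
    (hc : ∀ k ∈ K, ∀ p ∈ Subgroup.closure T, Commute k p)
    (hinv : ∀ p ∈ Subgroup.closure T, ∀ y ∈ orbit K z, p • y ∈ orbit K z)
    (hinf : ∀ y ∈ orbit K z, (orbit (Subgroup.closure T) y).Infinite)
    (hg : ∀ y ∈ orbit (Subgroup.closure T) z, y ∉ Bd M T) : CC M (orbit K z) := by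
  have hB : (Bd M T).Finite := hT.biUnion fun s _ => hf s
  let E : X → Set X := fun y => {w | w ∈ orbit (Subgroup.closure T) y ∧ ¬(w ∈ M ↔ z ∈ M)}
  have hE : ∀ y ∈ orbit K z, (E y).Finite := by
    intro y hy
    obtain ⟨k, hk, rfl⟩ := mem_orb.1 hy
    refine ((hf k).image fun w => k • w).subset ?_
    rintro w ⟨h1, h2⟩
    obtain ⟨p, hp, rfl⟩ := mem_orb.1 h1
    have e : p • k • z = k • p • z := by rw [smul_smul, smul_smul, (hc k hk p hp).eq]
    refine ⟨p • z, fun a => h2 ?_, e.symm⟩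
    rw [e]
    exact a.trans (good hg (mem_orb.2 ⟨p, hp, rfl⟩))
  have key : ∀ y ∈ orbit K z, y ∉ (⋃ b ∈ Bd M T ∩ orbit K z, E b) → (y ∈ M ↔ z ∈ M) := by
    intro y hy h1
    by_contra h2
    by_cases h3 : ∀ w ∈ orbit (Subgroup.closure T) y, w ∉ Bd M T
    · refine hinf y hy ((hE y hy).subset fun w hw => ⟨hw, fun a => h2 ?_⟩)
      exact (good h3 hw).symm.trans a
    · push Not at h3
      obtain ⟨w, hw, hb⟩ := h3
      refine h1 (mem_biUnion (x := w) ⟨hb, ?_⟩ ⟨?_, h2⟩)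
      · obtain ⟨p, hp, rfl⟩ := mem_orb.1 hw
        exact hinv p hp y hy
      · rw [orbit_eq_iff.2 hw]
        exact mem_orbit_self y
  exact ⟨_, (hB.inter_of_left _).biUnion fun b hb => hE b hb.2, fun y hy w hw a b =>
    (key y hy a).trans (key w hw b).symm⟩

/-- The points that change side under an element of `P₁` and are moved by `P₂` are bounded in
number. -/
theorem prod {P₁ P₂ P₃ P₄ : Subgroup H} {T₁ T₃ T₄ : Set H} (t1 : T₁.Finite) (t3 : T₃.Finite)
    (t4 : T₄.Finite) (a1 : P₁ ≤ Subgroup.closure T₁) (a3 : P₃ ≤ Subgroup.closure T₃)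
    (a4 : P₄ ≤ Subgroup.closure T₄) (b3 : Subgroup.closure T₃ ≤ P₂)
    (b4 : Subgroup.closure T₄ ≤ P₂) (c1 : ∀ k ∈ Subgroup.closure T₁, ∀ p ∈ P₂, Commute k p)
    (c2 : ∀ k ∈ Subgroup.closure T₃, ∀ p ∈ Subgroup.closure T₄, Commute k p)
    (n1 : NF P₁) (n2 : NF P₂) (n3 : NF P₃) (n4 : NF P₄) (pf : P₁ ≤ ⁅P₁, P₁⁆)
    (d3 : ∀ p ∈ P₂, ∃ k ∈ P₂, k * p * k⁻¹ ∈ P₃) (d4 : ∀ p ∈ P₂, ∃ k ∈ P₂, k * p * k⁻¹ ∈ P₄) :
    ∃ c : ℕ, ∀ g ∈ P₁, nb M g {y | ∀ p ∈ P₂, p • y = y}ᶜ ≤ c := by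
  have hB : ∀ {T : Set H}, T.Finite → (Bd M T).Finite := fun hT => hT.biUnion fun s _ => hf s
  have main : ∀ b : X, (∃ g ∈ P₁, ∃ y ∈ orbit (Subgroup.closure T₁) b, g • y ≠ y) →
      (∃ p ∈ P₂, p • b ≠ b) → CC M (orbit (Subgroup.closure T₁) b) := by
    rintro b ⟨g, hg, y, hy, hgy⟩ ⟨p₀, hp₀, hb⟩
    rcases alt (hB t1) n2 c1 b with ⟨p, hp, h⟩ | h
    · have key : ∀ w ∈ orbit (Subgroup.closure T₁) b, w ∉ Sd M p → (w ∈ M ↔ p • b ∈ M) := by
        intro w hw h1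
        refine (not_not.1 h1).symm.trans (good h ?_)
        obtain ⟨k, hk, rfl⟩ := mem_orb.1 hw
        exact mem_orb.2 ⟨k, hk, by rw [smul_smul, smul_smul, (c1 k hk p hp).eq]⟩
      exact ⟨_, hf p, fun y hy w hw a b => (key y hy a).trans (key w hw b).symm⟩
    have inv : ∀ p ∈ P₂, ∀ w ∈ orbit (Subgroup.closure T₁) b, p • w ∈ orbit (Subgroup.closure T₁) b := by
      intro p hp w hw
      obtain ⟨k, hk, rfl⟩ := mem_orb.1 hw
      rw [smul_smul, ← (c1 k hk p hp).eq, mul_smul]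
      exact orb_smul hk (h p hp)
    have sub : ∀ {P : Subgroup H} {T : Set H}, T.Finite → P ≤ Subgroup.closure T →
        Subgroup.closure T ≤ P₂ → NF P → (∀ p ∈ P₂, ∃ k ∈ P₂, k * p * k⁻¹ ∈ P) →
        CC M (orbit (Subgroup.closure T₁) b) ∨ ∀ w ∈ orbit (Subgroup.closure T₁) b, ∀ r ∈ P₁,
          r • w ∈ orbit (Subgroup.closure T) w := by
      intro P T t a b' n d
      by_cases hx : ∃ z ∈ orbit (Subgroup.closure T₁) b,
          ∀ y ∈ orbit (Subgroup.closure T) z, y ∉ Bd M T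
      · obtain ⟨z, hz, hx⟩ := hx
        left
        rw [← orbit_eq_iff.2 hz]
        refine fam hf t (fun k hk p hp => c1 k hk p (b' hp)) ?_ ?_ hx
        · rw [orbit_eq_iff.2 hz]
          exact fun p hp => inv p (b' hp)
        · rw [orbit_eq_iff.2 hz]
          intro w hw hfin
          have h1 : (orbit P w).Finite := hfin.subset fun v hv =>
            let ⟨q, hq, e⟩ := mem_orb.1 hv; mem_orb.2 ⟨q, a hq, e⟩
          obtain ⟨k, hk, hkp⟩ := d p₀ hp₀
          have h2 := n.fix h1 hkp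
          have h3 := inv k hk b (mem_orbit_self b)
          rw [← orbit_eq_iff.2 hw] at h3
          obtain ⟨j, hj, e⟩ := mem_orb.1 h3
          have h4 : (k * p₀ * k⁻¹) • k • b = k • b := by
            rw [← e, smul_smul, ← (c1 j hj _ (b' (a hkp))).eq, mul_smul, h2]
          rw [mul_smul, inv_smul_smul, mul_smul] at h4
          exact hb (MulAction.injective k h4)
      · refine Or.inr fun w hw => ?_
        rcases alt (hB t) n1 (fun k hk p hp => (c1 p (a1 hp) k (b' hk)).symm) w with ⟨p, hp, h1⟩ | h1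
        · exact absurd ⟨p • w, orb_smul (a1 hp) hw, h1⟩ hx
        · exact h1
    rcases sub t3 a3 b3 n3 d3 with h3 | h3
    · exact h3
    rcases sub t4 a4 b4 n4 d4 with h4 | h4
    · exact h4
    refine absurd ?_ hgy
    have h5 : ⁅P₁, P₁⁆ ≤ stabilizer H y := by
      refine Subgroup.commutator_le.2 fun r hr s hs => ?_
      have hw := orb_smul (a1 (P₁.inv_mem (P₁.mul_mem hs hr))) hy
      obtain ⟨k, hk, e1⟩ := mem_orb.1 (h3 _ hw r hr)
      obtain ⟨j, hj, e2⟩ := mem_orb.1 (h4 _ hw s hs)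
      have e3 : r • s • (s * r)⁻¹ • y = s • r • (s * r)⁻¹ • y := by
        rw [← e2, smul_smul r, (c1 r (a1 hr) j (b4 hj)).eq, mul_smul, ← e1, smul_smul s,
          (c1 s (a1 hs) k (b3 hk)).eq, mul_smul, ← e2, smul_smul j, smul_smul k, (c2 k hk j hj).eq]
      rw [mem_stabilizer_iff, commutatorElement_def]
      rw [smul_smul s r, smul_inv_smul, smul_smul, smul_smul] at e3
      refine Eq.trans ?_ e3
      congr 1
      group
    exact h5 (pf hg)
  have ch : ∀ b : X, ∃ D : Set X, D.Finite ∧ (CC M (orbit (Subgroup.closure T₁) b) →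
      ∀ y ∈ orbit (Subgroup.closure T₁) b, ∀ w ∈ orbit (Subgroup.closure T₁) b, y ∉ D → w ∉ D →
        (y ∈ M ↔ w ∈ M)) := fun b => by
    by_cases h : CC M (orbit (Subgroup.closure T₁) b)
    · obtain ⟨D, h1, h2⟩ := h
      exact ⟨D, h1, fun _ => h2⟩
    · exact ⟨∅, finite_empty, fun a => absurd a h⟩
  choose D hD1 hD2 using ch
  have hE : (⋃ b ∈ Bd M T₁, D b).Finite := (hB t1).biUnion fun b _ => hD1 b
  refine ⟨(⋃ b ∈ Bd M T₁, D b).ncard + (⋃ b ∈ Bd M T₁, D b).ncard, fun g hg => ?_⟩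
  have h1 : Sd M g ∩ {y | ∀ p ∈ P₂, p • y = y}ᶜ ⊆
      (⋃ b ∈ Bd M T₁, D b) ∪ (fun y => g⁻¹ • y) '' (⋃ b ∈ Bd M T₁, D b) := by
    rintro y ⟨h1, h2⟩
    have hgy := mem_orb.2 ⟨g, a1 hg, (rfl : g • y = g • y)⟩
    have h3 : ¬∀ w ∈ orbit (Subgroup.closure T₁) y, w ∉ Bd M T₁ := fun a => h1 (good a hgy)
    push Not at h3
    obtain ⟨b, hb, hbB⟩ := h3
    have e := orbit_eq_iff.2 hb
    have h4 : CC M (orbit (Subgroup.closure T₁) b) := by
      refine main b ⟨g, hg, y, e ▸ mem_orbit_self y, fun a => h1 (by rw [a])⟩ ?_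
      by_contra h5
      push Not at h5
      refine h2 fun p hp => ?_
      obtain ⟨k, hk, rfl⟩ := mem_orb.1 hb
      have h6 := h5 p hp
      rw [smul_smul, ← (c1 k hk p hp).eq, mul_smul] at h6
      exact MulAction.injective k h6
    by_contra h5
    refine h1 (hD2 b h4 _ (e ▸ hgy) _ (e ▸ mem_orbit_self y) (fun a => h5 (Or.inr ?_))
      fun a => h5 (Or.inl (mem_biUnion hbB a)))
    exact ⟨g • y, mem_biUnion hbB a, inv_smul_smul g y⟩
  refine (ncard_le_ncard h1 (hE.union (hE.image _))).trans ((ncard_union_le _ _).trans ?_)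
  rw [ncard_image_of_injective _ (MulAction.injective g⁻¹)]

end Pool.Agent.MP_3aea93_al.H72
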