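import Pool.Agent.MP_3aea93_al.H72.Loc
import Pool.Agent.MP_3aea93_al.H75.Ctx

/-! The local cost of translations and of affine maps is bounded. -/

set_option autoImplicit false

namespace Pool.Agent.MP_3aea93_al.H72

open Set Filter Topology H75

variable {C : Ctx}

variable (C) in
/-- a large slope with `p` in the denominator -/
def Hp (p : ℕ) : Prop := ∃ l ∈ C.L, 5 ≤ l ∧ ∃ α D : ℕ, Nat.Coprime p D ∧ 0 < D ∧ (D : ℝ)⁻¹ ∈ C.A ∧
  l⁻¹ = p * α / D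

theorem inv_dvd {d m : ℕ} (h : d ∣ m) (h0 : m ≠ 0) (hm : (m : ℝ)⁻¹ ∈ C.A) : (d : ℝ)⁻¹ ∈ C.A := by
  obtain ⟨r, rfl⟩ := h
  have a : (d : ℝ) ≠ 0 := Nat.cast_ne_zero.2 (left_ne_zero_of_mul h0)
  have b : (r : ℝ) ≠ 0 := Nat.cast_ne_zero.2 (right_ne_zero_of_mul h0)
  rw [show (d : ℝ)⁻¹ = r * ((d * r : ℕ) : ℝ)⁻¹ by push_cast; field_simp]
  exact C.A.mul_mem (natCast_mem _ _) hm

theorem exHp {k : ℕ} {n : Fin k → ℕ} (hk : 2 ≤ k) (hn : ∀ i, 1 < n i)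
    (hi : LinearIndependent ℤ fun i => Real.log (n i)) (hA : (C.A : Set ℝ) = ring n)
    (hL : (C.L : Set ℝ) = slopes n) {p : ℕ} (hp : p.Prime) (hd : p ∣ ∏ i, n i) : Hp C p := by
  obtain ⟨i, -, hi0⟩ := (Prime.dvd_finsetProd_iff hp.prime _).1 hd
  have : Nontrivial (Fin k) := Fin.nontrivial_iff_two_le.2 hk
  obtain ⟨j, hj⟩ := exists_ne i
  have := Fact.mk hp
  obtain ⟨κ, k1, k2, k3⟩ := CtxR.unit_slope hn hi i j hj.symm p hi0
  have kL : (κ : ℝ) ∈ C.L := by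
    show (κ : ℝ) ∈ (C.L : Set ℝ)
    rw [hL]; exact k1
  have n0 : (0 : ℚ) < n i := by exact_mod_cast one_pos.trans (hn i)
  obtain ⟨t, ht⟩ := pow_unbounded_of_one_lt (5 * n i : ℚ) k2
  have k0 : 0 < κ ^ t := pow_pos (one_pos.trans k2) t
  obtain ⟨q, hq⟩ : ∃ q : ℚ, q = n i / κ ^ t := ⟨_, rfl⟩
  have q0 : 0 < q := hq ▸ div_pos n0 k0
  have qL : (q : ℝ) ∈ C.L := by
    rw [hq]; push_cast; rw [div_eq_mul_inv]
    exact C.L.mul_mem (gen_mem hL i) (C.inv _ (C.L.pow_mem kL t))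
  have qv : 0 < padicValRat p q := by
    rw [hq, padicValRat.div n0.ne' k0.ne', padicValRat.pow, k3, padicValRat.of_nat]
    have := one_le_padicValNat_of_dvd (one_pos.trans (hn i)).ne' hi0
    omega
  have q1 : p ∣ q.num.natAbs := by
    by_contra a
    rw [padicValRat, padicValInt, padicValNat.eq_zero_of_not_dvd a] at qv
    omega
  obtain ⟨α, hα⟩ := q1
  have q2 : (q : ℝ) = p * α / q.den := by
    have a : q.num = p * α := by
      rw [← Int.natAbs_of_nonneg (Rat.num_pos.2 q0).le, hα]; push_cast; rfl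
    rw [Rat.cast_def, a]; push_cast; rfl
  obtain ⟨s, z, hz⟩ := den hn hA (C.sub _ qL)
  have M0 : (∏ i, n i) ^ s ≠ 0 := pow_ne_zero _ (Finset.prod_pos fun i _ => one_pos.trans (hn i)).ne'
  have q3 : q.den ∣ (∏ i, n i) ^ s := by
    have a : q = z / (((∏ i, n i) ^ s : ℕ) : ℤ) := by
      have b : (((∏ i, n i) ^ s : ℕ) : ℚ) * q = z := by exact_mod_cast hz
      rw [← b, Int.cast_natCast, mul_div_cancel_left₀ _ (Nat.cast_ne_zero.2 M0)]
    have c := Rat.den_dvd z (((∏ i, n i) ^ s : ℕ) : ℤ)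
    rw [Rat.divInt_eq_div, ← a] at c
    exact_mod_cast c
  refine ⟨(q : ℝ)⁻¹, C.inv _ qL, ?_, α, q.den, ?_, q.den_pos, inv_dvd q3 M0 ?_, by rw [inv_inv, q2]⟩
  · have : 5 ≤ q⁻¹ := by rw [hq, inv_div, le_div_iff₀ n0]; exact ht.le
    exact_mod_cast this
  · exact Nat.Coprime.coprime_dvd_left ⟨α, hα⟩ q.reduced
  · refine C.sub _ (C.inv _ ?_)
    push_cast
    exact C.L.pow_mem (C.L.prod_mem fun i _ => gen_mem hL i) s

theorem frac {a b : ℕ} (h : Nat.Coprime a b) (ha : a ≠ 0) (hb : b ≠ 0) (z : ℤ) :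
    ∃ x y : ℤ, (z : ℝ) / (a * b) = x / a + y / b := by
  obtain ⟨u, v, e⟩ := Nat.isCoprime_iff_coprime.2 h
  have e' : (u : ℝ) * a + v * b = 1 := by exact_mod_cast e
  have a0 : (a : ℝ) ≠ 0 := Nat.cast_ne_zero.2 ha
  have b0 : (b : ℝ) ≠ 0 := Nat.cast_ne_zero.2 hb
  refine ⟨z * v, z * u, ?_⟩
  push_cast
  field_simp
  linear_combination (-(z : ℝ)) * e'

theorem iter {P : ℕ → Prop} {c : ℕ} (h1 : ∀ k k', k ≤ k' → P k → P k')
    (h2 : ∀ k, P k → P (k / 2 + c)) (k : ℕ) : P k → P (2 * c + 1) := by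
  induction k using Nat.strong_induction_on with
  | _ k ih =>
    intro h
    by_cases a : k ≤ 2 * c + 1
    · exact h1 _ _ a h
    · exact ih _ (by omega) (h2 k h)

variable {X : Type} [MulAction C.G X] {M : Set X} (hf : ∀ g : C.G, (Sd M g).Finite)
  (h1 : ∀ y : X, rot C 1 C.A.one_mem • y = y)
include hf h1

variable (C M) in
omit hf h1 in
/-- bounded cost for the fractions whose denominator is a power of `d` -/
def Bdd (d : ℕ) : Prop := ∃ w₀ : ℝ, 0 < w₀ ∧ ∀ w, 0 < w → w ≤ w₀ → ∃ K, ∀ (s : ℕ) (z : ℤ),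
  U C M w (z / (d : ℝ) ^ s) K

theorem rot_p {p : ℕ} (p0 : p ≠ 0) (h : Hp C p) : Bdd C M p := by
  obtain ⟨l, hl, l5, α, D, cp, D0, DA, e⟩ := h
  refine ⟨1 / (2 * l), by positivity, fun w w0 w1 => ?_⟩
  rw [le_div_iff₀ (by positivity)] at w1
  obtain ⟨k₀, a0⟩ := U_half hf h1 hl l5 w0 (by nlinarith)
  obtain ⟨k₁, a1⟩ := fin hf h1 DA
  obtain ⟨k₂, a2⟩ := fin hf h1 C.A.one_mem
  refine ⟨k₁ + 2 * k₀ + k₂, fun s => ?_⟩
  induction s with
  | zero =>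
    intro z u
    rw [pow_zero, div_one, ← mul_one (z : ℝ)]
    exact (a2 z w u).le (by omega)
  | succ s ih =>
    intro z u
    obtain ⟨x, y, e1⟩ := frac (cp.pow_left s) (pow_ne_zero s p0) D0.ne' (z * α)
    have a3 := a0 _ _ ((ih x).add hf w0.le (a1 y w)) u
    have a : (p : ℝ) ≠ 0 := Nat.cast_ne_zero.2 p0
    have b : (D : ℝ) ≠ 0 := Nat.cast_ne_zero.2 D0.ne'
    have c : l ≠ 0 := by positivity
    have e2 : l * (x / (p : ℝ) ^ s + y * (D : ℝ)⁻¹) = z / (p : ℝ) ^ (s + 1) := by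
      push_cast at e1
      rw [← div_eq_mul_inv, ← e1, ← eq_inv_mul_iff_mul_eq₀ c, e]
      field_simp
      ring
    rw [e2] at a3
    exact a3.le (by omega)

theorem rot_d (d : ℕ) : d ≠ 0 → (∀ p : ℕ, p.Prime → p ∣ d → Hp C p) → Bdd C M d := by
  induction d using Nat.recOnPosPrimePosCoprime with
  | prime_pow p r hp hr =>
    intro _ h
    obtain ⟨w₀, a, b⟩ := rot_p hf h1 hp.ne_zero (h p hp (dvd_pow_self p hr.ne'))
    refine ⟨w₀, a, fun w c d => (b w c d).imp fun K hK s z => ?_⟩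
    push_cast
    rw [← pow_mul]
    exact hK _ z
  | zero => exact fun h => absurd rfl h
  | one =>
    intro _ _
    obtain ⟨k, a⟩ := fin hf h1 C.A.one_mem
    exact ⟨1, one_pos, fun w _ _ => ⟨k, fun s z => by simpa using a z w⟩⟩
  | coprime a b ha hb cp i1 i2 =>
    intro _ h
    obtain ⟨w₁, a1, a2⟩ := i1 (by omega) fun p hp c => h p hp (c.mul_right b)
    obtain ⟨w₂, b1, b2⟩ := i2 (by omega) fun p hp c => h p hp (c.mul_left a)
    refine ⟨min w₁ w₂, lt_min a1 b1, fun w w0 w1 => ?_⟩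
    obtain ⟨K₁, c1⟩ := a2 w w0 (w1.trans (min_le_left _ _))
    obtain ⟨K₂, c2⟩ := b2 w w0 (w1.trans (min_le_right _ _))
    refine ⟨K₂ + K₁, fun s z => ?_⟩
    obtain ⟨x, y, e⟩ := frac (cp.pow s s) (pow_ne_zero s (by omega)) (pow_ne_zero s (by omega)) z
    push_cast at e ⊢
    rw [mul_pow, e]
    exact (c1 s x).add hf w0.le (c2 s y)

variable (C M) in
omit hf h1 in
/-- all the translations have bounded cost along proper arcs -/
def RotB : Prop := ∀ w : ℝ, 0 < w → w < 1 → ∃ K, ∀ c ∈ C.A, U C M w c K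

theorem rotB {k : ℕ} {n : Fin k → ℕ} (hk : 2 ≤ k) (hn : ∀ i, 1 < n i)
    (hi : LinearIndependent ℤ fun i => Real.log (n i)) (hA : (C.A : Set ℝ) = ring n)
    (hL : (C.L : Set ℝ) = slopes n) : RotB C M := by
  have M0 : ∏ i, n i ≠ 0 := (Finset.prod_pos fun i _ => one_pos.trans (hn i)).ne'
  obtain ⟨w₀, a, b⟩ := rot_d hf h1 _ M0 fun p hp hd => exHp hk hn hi hA hL hp hd
  intro w w0 w1
  obtain ⟨l, hl, l1⟩ := C.exists_small (lt_min a one_pos)
  obtain ⟨l2, l3⟩ := lt_min_iff.1 l1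
  have l0 := C.pos l hl
  obtain ⟨K, hK⟩ := b (l * w) (mul_pos l0 w0) (by nlinarith)
  obtain ⟨k₀, h₀⟩ := U_up hf h1 (w := l * w) (C.inv l hl) (mul_pos l0 w0).le (by nlinarith)
    (by rwa [inv_mul_cancel_left₀ l0.ne'])
  refine ⟨K + k₀, fun c hc => ?_⟩
  obtain ⟨j, z, e⟩ := den hn hA (C.A.mul_mem (C.sub l hl) hc)
  have e2 : z / ((∏ i, n i : ℕ) : ℝ) ^ j = l * c := by
    rw [← e, mul_div_cancel_left₀ _ (pow_ne_zero _ (Nat.cast_ne_zero.2 M0))]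
  have := h₀ _ _ (hK j z)
  rwa [e2, inv_mul_cancel_left₀ l0.ne', inv_mul_cancel_left₀ l0.ne'] at this

variable (hR : RotB C M)
include hR

theorem aff1 : ∃ w : ℝ, 0 < w ∧ w < 1 ∧ ∃ K, ∀ μ ∈ C.L, μ ≤ 1 → ∀ u,
    Loc C M (fun x => μ * x) u (u + w) K := by
  obtain ⟨r, hr, r1⟩ := C.exists_small (by norm_num : (0 : ℝ) < 1 / 5)
  have r0 := C.pos r hr
  have hl := C.inv r hr
  have l5 : 5 ≤ r⁻¹ := by rw [le_inv_comm₀ (by norm_num) r0]; linarith
  have lw : r⁻¹ * (r / 2) = 1 / 2 := by field_simp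
  generalize r⁻¹ = l at hl l5 lw
  have w0 : 0 < r / 2 := by linarith
  have w1 : 5 * (r / 2) < 1 := by linarith
  generalize r / 2 = w at lw w0 w1
  have l0 := C.pos l hl
  obtain ⟨k₁, a1⟩ := dil hf h1 (w := l * w) (C.inv l hl) (by linarith) (by linarith)
    (by rw [inv_mul_cancel_left₀ l0.ne']; linarith)
  obtain ⟨k₂, a2⟩ := dil hf h1 hl w0.le (by linarith) (by linarith)
  obtain ⟨k₀, a0⟩ := hR w w0 (by linarith)
  obtain ⟨e, he, e0, e1⟩ := C.dense w0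
  refine ⟨w, w0, by linarith, 2 * (k₁ + k₂ + 2 * k₀) + 1, fun μ hμ m1 => ?_⟩
  have m0 := C.pos μ hμ
  have m2 : μ * w ≤ w := by nlinarith
  obtain ⟨k, hk⟩ := dil hf h1 hμ w0.le (by linarith) (by linarith)
  refine iter (P := fun k => ∀ u, Loc C M (fun x => μ * x) u (u + w) k)
    (fun k k' a b u => (b u).le a) (fun k h u => ?_) k hk
  have a3 := ((scal hf l0 w0.le a1 a2 (u := 0) (h _) (by linarith)).mono hf le_rfl
    (by nlinarith : 5 * w ≤ 0 + l * w)).congr (f' := fun x => μ * x + 0) fun x => by field_simp; ring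
  refine ((dbl hf h1 e0 e1.le w1 (fun z => a0 _ (C.A.mul_mem (intCast_mem _ _) he))
    (fun z u => (a0 _ (C.A.mul_mem (intCast_mem _ z) (C.A.mul_mem (C.sub μ hμ) he)) u).mono hf le_rfl
      (by linarith)) a3 u).congr fun x => add_zero _).le (by omega)

/-- affine maps with a small slope -/
theorem affL {w : ℝ} (w0 : 0 < w) (w1 : w < 1) : ∃ ε : ℝ, 0 < ε ∧ ∃ K, ∀ μ ∈ C.L, μ ≤ ε →
    ∀ c ∈ C.A, ∀ u, Loc C M (fun x => μ * x + c) u (u + w) K := by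
  obtain ⟨w', a0, a1, K, hK⟩ := aff1 hf h1 hR
  obtain ⟨r, hr, r1⟩ := C.exists_small a0
  have r0 := C.pos r hr
  have r2 : r * w ≤ w' := by nlinarith
  obtain ⟨k₁, b1⟩ := dil hf h1 hr w0.le w1 (by linarith)
  obtain ⟨k₂, b2⟩ := hR w' a0 a1
  refine ⟨r, r0, k₂ + (K + k₁), fun μ hμ m1 c hc u => ?_⟩
  have m0 := C.pos μ hμ
  have m2 : μ * r⁻¹ ≤ 1 := by rw [← div_eq_mul_inv, div_le_one r0]; exact m1
  have b3 := (b1 u).comp hf (hK _ (C.L.mul_mem hμ (C.inv r hr)) m2 (r * u)) (by linarith) le_rfl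
    (by linarith)
  have e : ∀ x, μ * r⁻¹ * (r * x) = μ * x := fun x => by field_simp
  refine (b3.comp hf (b2 c hc _) (by linarith) le_rfl ?_).congr fun x => by rw [e]
  rw [e, e]; nlinarith

/-- identity on the left of `z`, slope `s` on the right -/
def OS (k : ℝ ≃o ℝ) (z s : ℝ) : Prop := (∀ x, x ≤ z → k x = x) ∧ ∀ x, z ≤ x → k x = z + s * (x - z)

omit h1 in
theorem os {s w : ℝ} (hs : s ∈ C.L) (w0 : 0 < w) (w1 : 2 * w < 1) (w2 : (1 + s) * w < 1) :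
    ∃ K, ∀ z ∈ C.A, ∀ k, OS k z s → Loc C M k (z - w) (z + w) K := by
  have s0 := C.pos s hs
  obtain ⟨k₀, hk₀, a1, a2⟩ := Ext.exists_R rowGlue C C.A.zero_mem hs
  have e1 := a1 (-w) (by linarith)
  have e2 := a2 w w0.le
  obtain ⟨K₀, b0⟩ := exLoc (M := M) hk₀ (u := -w) (v := w) (by linarith) (by
    rw [e1, e2, min_self, sub_lt_iff_lt_add]
    exact max_lt (by linarith) (by linarith))
  obtain ⟨K₁, b1⟩ := hR (2 * w) (by linarith) w1
  obtain ⟨K₂, b2⟩ := hR ((1 + s) * w) (by positivity) w2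
  refine ⟨K₂ + (K₀ + K₁), fun z hz k hk => ?_⟩
  have b3 := ((b1 _ (C.A.neg_mem hz) (z - w)).mono hf le_rfl
    (by linarith : z + w ≤ z - w + 2 * w)).comp hf b0 (by linarith) (by linarith) (by linarith)
  refine (b3.comp hf (b2 z hz (-w)) (by linarith) ?_ ?_).congr fun x => ?_
  · rw [show z - w + -z = -w by ring, e1]
  · rw [show z + w + -z = w by ring, e2]; linarith
  · rcases le_total x z with d | d
    · rw [a1 _ (by linarith), hk.1 x d]; ring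
    · rw [a2 _ (by linarith), hk.2 x d]; ring

end Pool.Agent.MP_3aea93_al.H72
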